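import Pool.Agent.H472.PV.Piece

/-!
The exponential sum over an interval; the roots of a real polynomial.
-/

set_option autoImplicit false

namespace Pool.Agent.H472.PV

open Finset
open Pool.Agent.H469R2.NK (e norm_e)

/-- the exponential sum over an interval whose length and whose distances from the roots are of the order `R` -/
theorem interval (k q : ℕ) (hq : 2 ≤ q) (W C1 : ℝ) (hW : 1 ≤ W) (hC1 : 1 ≤ C1) : ∃ C : ℝ, 1 ≤ C ∧
    ∀ (ρ : Fin k → ℂ), (∀ f : ℂ → ℂ, ∑ i, f ((starRingEnd ℂ) (ρ i)) = ∑ i, f (ρ i)) →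
      ∀ (κ R : ℝ), 1 ≤ R → R ≤ C1 * κ → κ ≤ C1 * R ^ (q - 1) →
      ∀ a b : ℤ, (b : ℝ) - a ≤ W * R →
      (∀ x : ℝ, a ≤ x → x ≤ b → ∀ i, R / W ≤ ‖(x : ℂ) - ρ i‖) →
      (∀ x : ℝ, a ≤ x → x ≤ b → ∃ i, ‖(x : ℂ) - ρ i‖ ≤ W * R) →
      ‖∑ n ∈ Icc a b, e (PH ρ κ 0 n)‖ ≤ C * R ^ (1 - 1 / (2 * (k * q : ℕ) * 2 ^ (k * q)) : ℝ) := by
  classical
  obtain ⟨C, hC, hpiece⟩ := piece k q hq W C1 hW hC1
  set D : ℕ := k * (3 * (k * (k * q + 1))) with hD
  refine ⟨(D + 1) * C + D, by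
    have : (0 : ℝ) ≤ D := Nat.cast_nonneg _
    nlinarith, ?_⟩
  intro ρ hc κ R hR hRκ hκR a b hlen hlow hup
  have hR0 : 0 < R := by linarith
  have hW0 : 0 < W := by linarith
  have hexp0 : (0 : ℝ) ≤ 1 - 1 / (2 * (k * q : ℕ) * 2 ^ (k * q)) := by
    have h2 : (1 : ℝ) ≤ 2 ^ (k * q) := one_le_pow₀ (by norm_num)
    rcases Nat.eq_zero_or_pos (k * q) with h0 | h0
    · rw [h0]; norm_num
    · have h1 : (1 : ℝ) ≤ ((k * q : ℕ) : ℝ) := by exact_mod_cast h0
      have h3 : 1 / (2 * ((k * q : ℕ) : ℝ) * 2 ^ (k * q)) ≤ 1 := by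
        rw [div_le_one (by positivity)]
        nlinarith
      linarith
  have hRp : (1 : ℝ) ≤ R ^ (1 - 1 / (2 * (k * q : ℕ) * 2 ^ (k * q)) : ℝ) := Real.one_le_rpow hR hexp0
  have hD0 : (0 : ℝ) ≤ D := Nat.cast_nonneg _
  rcases lt_or_ge b a with hba | hab
  · rw [Icc_eq_empty (by omega)]
    simp only [sum_empty, norm_zero]
    positivity
  have hab' : (a : ℝ) ≤ b := by exact_mod_cast hab
  have hk1 : 1 ≤ k := by
    obtain ⟨i, _⟩ := hup a le_rfl hab'
    have := i.2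
    omega
  have hz : ∀ (m : ℕ) (c : ℝ), ∃ Z : Finset ℝ, Z.card ≤ k * m ∧ (1 ≤ m → ∀ x : ℝ, (∀ i, (x : ℂ) ≠ ρ i) →
      (PS ρ m x).re = c → x ∈ Z) := by
    intro m c
    rcases Nat.eq_zero_or_pos m with h0 | h0
    · exact ⟨∅, by simp, fun h => absurd h (by omega)⟩
    · obtain ⟨Z, hZ1, hZ2⟩ := PS_zeros hk1 ρ hc m h0 c
      exact ⟨Z, hZ1, fun _ => hZ2⟩
  choose Zf hZ1 hZ2 using hz
  set Z : Finset ℝ := (Icc 1 k).biUnion (fun m => Zf (q * m) (thr k (W * R) (q * m)) ∪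
    (Zf (q * m) (-thr k (W * R) (q * m)) ∪ Zf (q * m + 1) 0)) with hZ
  have hZcard : Z.card ≤ D := by
    rw [hZ]
    refine card_biUnion_le.trans ?_
    calc ∑ m ∈ Icc 1 k, (Zf (q * m) (thr k (W * R) (q * m)) ∪
          (Zf (q * m) (-thr k (W * R) (q * m)) ∪ Zf (q * m + 1) 0)).card
        ≤ ∑ m ∈ Icc 1 k, 3 * (k * (k * q + 1)) := by
          apply sum_le_sum
          intro m hm
          rw [mem_Icc] at hm
          have h1 : q * m ≤ k * q := by rw [Nat.mul_comm k q]; exact Nat.mul_le_mul_left q hm.2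
          have h2 := card_union_le (Zf (q * m) (thr k (W * R) (q * m)))
            (Zf (q * m) (-thr k (W * R) (q * m)) ∪ Zf (q * m + 1) 0)
          have h3 := card_union_le (Zf (q * m) (-thr k (W * R) (q * m))) (Zf (q * m + 1) 0)
          have h4 := hZ1 (q * m) (thr k (W * R) (q * m))
          have h5 := hZ1 (q * m) (-thr k (W * R) (q * m))
          have h6 := hZ1 (q * m + 1) 0
          have h7 : k * (q * m) ≤ k * (k * q + 1) := Nat.mul_le_mul_left k (by omega)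
          have h8 : k * (q * m + 1) ≤ k * (k * q + 1) := Nat.mul_le_mul_left k (by omega)
          omega
      _ = D := by rw [sum_const, Nat.card_Icc, smul_eq_mul]; rfl
  have hne : ∀ x : ℝ, a ≤ x → x ≤ b → ∀ i, (x : ℂ) ≠ ρ i := by
    intro x h1 h2 i heq
    have h3 := hlow x h1 h2 i
    rw [heq, sub_self, norm_zero] at h3
    have : 0 < R / W := by positivity
    linarith
  have hmain := split (fun n => e (PH ρ κ 0 n)) (fun n => (norm_e _).le)
    (C * R ^ (1 - 1 / (2 * (k * q : ℕ) * 2 ^ (k * q)) : ℝ)) (by positivity) Z D a b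
    ((card_filter_le _ _).trans hZcard) (by
      intro a' b' h1 h2 h3 h4
      have h1' : (a : ℝ) ≤ a' := by exact_mod_cast h1
      have h2' : (a' : ℝ) ≤ b' := by exact_mod_cast h2
      have h3' : (b' : ℝ) ≤ b := by exact_mod_cast h3
      apply hpiece ρ hc κ R hR hRκ hκR a' b' h2 (by linarith)
        (fun x e1 e2 => hlow x (by linarith) (by linarith)) (hup a' h1' (by linarith))
      intro m hm1 hmk x hx1 hx2
      have hxne := hne x (by linarith) (by linarith)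
      have hqm : 1 ≤ q * m := Nat.mul_pos (by omega) hm1
      have hmem : m ∈ Icc 1 k := mem_Icc.2 ⟨hm1, hmk⟩
      refine ⟨?_, ?_, ?_⟩
      · intro h
        refine h4 x ?_ ⟨hx1, hx2⟩
        rw [hZ, mem_biUnion]
        exact ⟨m, hmem, mem_union_left _ (hZ2 _ _ hqm x hxne h)⟩
      · intro h
        refine h4 x ?_ ⟨hx1, hx2⟩
        rw [hZ, mem_biUnion]
        exact ⟨m, hmem, mem_union_right _ (mem_union_left _ (hZ2 _ _ hqm x hxne h))⟩
      · intro h
        refine h4 x ?_ ⟨hx1, hx2⟩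
        rw [hZ, mem_biUnion]
        exact ⟨m, hmem, mem_union_right _ (mem_union_right _ (hZ2 _ _ (by omega) x hxne h))⟩)
  refine hmain.trans ?_
  calc ((D : ℝ) + 1) * (C * R ^ (1 - 1 / (2 * (k * q : ℕ) * 2 ^ (k * q)) : ℝ)) + D
      ≤ ((D : ℝ) + 1) * (C * R ^ (1 - 1 / (2 * (k * q : ℕ) * 2 ^ (k * q)) : ℝ)) +
        D * R ^ (1 - 1 / (2 * (k * q : ℕ) * 2 ^ (k * q)) : ℝ) := by
        have := mul_le_mul_of_nonneg_left hRp hD0
        linarith
    _ = _ := by ring

open Polynomial in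
/-- the complex roots of a real polynomial -/
theorem exists_roots (P : ℝ[X]) (k : ℕ) (hk : P.natDegree = k) : ∃ ρ : Fin k → ℂ,
    (∀ f : ℂ → ℂ, ∑ i, f ((starRingEnd ℂ) (ρ i)) = ∑ i, f (ρ i)) ∧
    ∀ x : ℝ, |P.eval x| = |P.leadingCoeff| * ∏ i, ‖(x : ℂ) - ρ i‖ := by
  set Q : ℂ[X] := P.map Complex.ofRealHom with hQ
  have hsp : Q.Splits := IsAlgClosed.splits Q
  have hdeg : Q.natDegree = k := by rw [hQ, natDegree_map, hk]
  have hcard : Multiset.card Q.roots = k := by rw [← hsp.natDegree_eq_card_roots, hdeg]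
  have hlen : Q.roots.toList.length = k := by rw [Multiset.length_toList, hcard]
  set ρ : Fin k → ℂ := fun i => Q.roots.toList.get (Fin.cast hlen.symm i) with hρ
  have hmap : univ.val.map ρ = Q.roots := by
    rw [Fin.univ_val_map]
    have h1 : List.ofFn ρ = Q.roots.toList := by
      apply List.ext_getElem
      · rw [List.length_ofFn, hlen]
      · intro i h1 h2
        rw [List.getElem_ofFn]
        simp [hρ]
    rw [h1]
    exact Multiset.coe_toList _
  have hsum : ∀ f : ℂ → ℂ, ∑ i, f (ρ i) = (Q.roots.map f).sum := by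
    intro f
    rw [← hmap, Multiset.map_map]
    rfl
  refine ⟨ρ, ?_, ?_⟩
  · intro f
    have h1 : Q.map (starRingEnd ℂ) = Q := by
      rw [hQ, Polynomial.map_map]
      congr 1
      ext x
      simp
    have h2 : Q.roots.map (starRingEnd ℂ) = Q.roots := by
      have h3 := hsp.roots_map (starRingEnd ℂ)
      rw [h1] at h3
      exact h3.symm
    have h4 := hsum (fun w => f ((starRingEnd ℂ) w))
    rw [h4, hsum f]
    conv_rhs => rw [← h2]
    rw [Multiset.map_map]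
    rfl
  · intro x
    have h1 : Q.eval (x : ℂ) = ((P.eval x : ℝ) : ℂ) := by
      rw [hQ]
      exact (Polynomial.eval_map_apply (f := Complex.ofRealHom) x)
    have h2 := hsp.eval_eq_prod_roots (x : ℂ)
    have h3 : (Q.roots.map (fun a => (x : ℂ) - a)).prod = ∏ i, ((x : ℂ) - ρ i) := by
      rw [← hmap, Multiset.map_map]
      rfl
    have h4 : Q.leadingCoeff = (P.leadingCoeff : ℂ) := by
      rw [hQ, leadingCoeff_map]
      rfl
    rw [h1, h3, h4] at h2
    have h5 := congrArg norm h2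
    rw [Complex.norm_real, norm_mul, Complex.norm_real, norm_prod, Real.norm_eq_abs, Real.norm_eq_abs] at h5
    exact h5

end Pool.Agent.H472.PV
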