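import Pool.Agent.H472.PV.Test

/-!
The test at the natural scale: a power of `R` is saved.
-/

set_option autoImplicit false

namespace Pool.Agent.H472.PV

open Finset
open Pool.Agent.R327.SI (pow_quot)

theorem lgR (p : ℕ) (ε : ℝ) (hε : 0 < ε) : ∃ C : ℝ, 1 ≤ C ∧ ∀ x : ℝ, 1 ≤ x →
    (1 + Real.log x) ^ p ≤ C * x ^ ε := by
  set s : ℝ := ε / (p + 1) with hs
  have hp0 : (0 : ℝ) ≤ p := Nat.cast_nonneg _
  have hs0 : 0 < s := by rw [hs]; positivity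
  refine ⟨(1 + 1 / s) ^ p, one_le_pow₀ (by
    have : 0 < 1 / s := by positivity
    linarith), ?_⟩
  intro x hx
  have h1 := Real.log_le_rpow_div (x := x) (ε := s) (by linarith) hs0
  have h2 : (1 : ℝ) ≤ x ^ s := Real.one_le_rpow hx hs0.le
  have h0 : 0 ≤ Real.log x := Real.log_nonneg hx
  have h3 : 1 + Real.log x ≤ (1 + 1 / s) * x ^ s := by
    have : x ^ s / s = 1 / s * x ^ s := by ring
    rw [this] at h1
    linarith
  calc (1 + Real.log x) ^ p ≤ ((1 + 1 / s) * x ^ s) ^ p := pow_le_pow_left₀ (by linarith) h3 p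
    _ = (1 + 1 / s) ^ p * x ^ (s * p) := by rw [mul_pow, ← Real.rpow_natCast (x ^ s), ← Real.rpow_mul (by linarith)]
    _ ≤ (1 + 1 / s) ^ p * x ^ ε := by
        have h4 : s * p ≤ ε := by
          rw [hs, div_mul_eq_mul_div, div_le_iff₀ (by linarith)]
          nlinarith
        have h5 : 0 ≤ (1 + 1 / s) ^ p := by positivity
        exact mul_le_mul_of_nonneg_left (Real.rpow_le_rpow_of_exponent_le hx h4) h5

/-- a power of `R` is saved -/
theorem ker0G (q : ℕ) (hq : 1 ≤ q) (C1 : ℝ) (hC1 : 1 ≤ C1) : ∃ C : ℝ, 1 ≤ C ∧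
    ∀ (φ : ℕ → ℝ → ℝ) (a : ℝ) (L : ℕ) (R l σ τ : ℝ), 1 ≤ R → (L : ℝ) ≤ C1 * R → 0 < l → l ≤ C1 * R⁻¹ →
      1 ≤ C1 * R ^ q * l → Chain φ a (a + L) → (σ = 1 ∨ σ = -1) → (τ = 1 ∨ τ = -1) →
      (∀ x, a ≤ x → x ≤ a + L → l ≤ σ * φ (q + 1) x ∧ σ * φ (q + 1) x ≤ C1 * l) →
      (∀ x, a ≤ x → x ≤ a + L → 0 ≤ τ * φ (q + 2) x) →
      ‖SD (φ 0) a L []‖ ≤ C * R ^ (1 - 1 / (2 * q * 2 ^ q) : ℝ) := by
  have hq' : (1 : ℝ) ≤ q := by exact_mod_cast hq
  obtain ⟨C2, hC2, hlg⟩ := lgR q (1 / (2 * q)) (by positivity)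
  have hCT := CT_pos q C1 (by linarith)
  set K : ℝ := CT q C1 * (C2 * C1) * C1 ^ (2 ^ q) * (3 * C1) with hK
  have hK1 : 1 ≤ K := by
    rw [hK]
    have h1 : (1 : ℝ) ≤ C1 ^ (2 ^ q) := one_le_pow₀ hC1
    exact one_le_mul_of_one_le_of_one_le (one_le_mul_of_one_le_of_one_le
      (one_le_mul_of_one_le_of_one_le hCT (one_le_mul_of_one_le_of_one_le hC2 hC1)) h1) (by linarith)
  refine ⟨K, hK1, ?_⟩
  intro φ a L R l σ τ hR hL hl hl1 hl2 hch hσ hτ h1 h2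
  have hR0 : 0 < R := by linarith
  rcases Nat.eq_zero_or_pos L with h0 | hLpos
  · subst h0
    have : ‖SD (φ 0) a 0 []‖ = 0 := by unfold SD; simp
    rw [this]
    positivity
  have hL1 : (1 : ℝ) ≤ L := by exact_mod_cast hLpos
  have hL0 : (0 : ℝ) < L := by linarith
  have ht := testG hch q hq hLpos hl hC1 hσ hτ h1 h2
  have hw : q + 1 ≤ 2 ^ q := Nat.succ_le_of_lt Nat.lt_two_pow_self
  have hw1 : 1 ≤ 2 ^ q := Nat.one_le_two_pow
  set B : ℝ := C1 * R with hB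
  have hBR : R ≤ B := le_mul_of_one_le_left hR0.le hC1
  have hB1 : 1 ≤ B := hR.trans hBR
  have hB0 : 0 < B := by linarith
  set n2 : ℕ := 2 ^ q with hn2
  have hlogL : 0 ≤ Real.log L := Real.log_nonneg hL1
  have hlogB : 0 ≤ Real.log B := Real.log_nonneg hB1
  have hRinv : R⁻¹ ≤ R ^ (-(1 / q) : ℝ) := by
    rw [← Real.rpow_neg_one]
    apply Real.rpow_le_rpow_of_exponent_le hR
    have : (1 : ℝ) / q ≤ 1 := by rw [div_le_one (by linarith)]; exact hq'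
    linarith
  -- the power of the logarithm
  have hlgL : (1 + Real.log L) ^ q ≤ (C2 * C1) * R ^ (1 / (2 * q) : ℝ) := by
    have h1 := hlg B hB1
    calc (1 + Real.log L) ^ q ≤ (1 + Real.log B) ^ q := by
          apply pow_le_pow_left₀ (by linarith)
          have := Real.log_le_log hL0 hL
          linarith
      _ ≤ C2 * B ^ (1 / (2 * q) : ℝ) := h1
      _ = C2 * (C1 ^ (1 / (2 * q) : ℝ) * R ^ (1 / (2 * q) : ℝ)) := by
          rw [hB, Real.mul_rpow (by linarith) hR0.le]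
      _ ≤ C2 * (C1 * R ^ (1 / (2 * q) : ℝ)) := by
          have h3 : C1 ^ (1 / (2 * q) : ℝ) ≤ C1 := by
            calc C1 ^ (1 / (2 * q) : ℝ) ≤ C1 ^ (1 : ℝ) := by
                  apply Real.rpow_le_rpow_of_exponent_le hC1
                  rw [div_le_one (by positivity)]
                  linarith
              _ = C1 := Real.rpow_one _
          gcongr
      _ = _ := by ring
  -- the three terms
  have e1 : (L : ℝ) ^ n2 * (1 / L) ≤ B ^ n2 * (C1 * R ^ (-(1 / q) : ℝ)) := by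
    have h1 := pow_quot hL0 hL (k := 1) (w := n2) (by omega)
    rw [pow_one, pow_one] at h1
    have h2 : 1 / B ≤ C1 * R ^ (-(1 / q) : ℝ) := by
      calc 1 / B ≤ 1 / R := one_div_le_one_div_of_le hR0 hBR
        _ = R⁻¹ := one_div _
        _ ≤ R ^ (-(1 / q) : ℝ) := hRinv
        _ ≤ _ := le_mul_of_one_le_left (by positivity) hC1
    calc (L : ℝ) ^ n2 * (1 / L) = (L : ℝ) ^ n2 / L := by ring
      _ ≤ B ^ n2 / B := h1
      _ = B ^ n2 * (1 / B) := by ring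
      _ ≤ _ := by gcongr
  have e2 : (L : ℝ) ^ n2 * l ^ ((1 : ℝ) / q) ≤ B ^ n2 * (C1 * R ^ (-(1 / q) : ℝ)) := by
    have h2 : l ^ ((1 : ℝ) / q) ≤ C1 * R ^ (-(1 / q) : ℝ) := by
      calc l ^ ((1 : ℝ) / q) ≤ (C1 * R⁻¹) ^ ((1 : ℝ) / q) :=
            Real.rpow_le_rpow (by positivity) hl1 (by positivity)
        _ = C1 ^ ((1 : ℝ) / q) * R ^ (-(1 / q) : ℝ) := by
            rw [Real.mul_rpow (by linarith) (by positivity), ← Real.rpow_neg_one R, ← Real.rpow_mul hR0.le]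
            congr 2; ring
        _ ≤ C1 * R ^ (-(1 / q) : ℝ) := by
            gcongr
            calc C1 ^ ((1 : ℝ) / q) ≤ C1 ^ (1 : ℝ) := by
                  apply Real.rpow_le_rpow_of_exponent_le hC1
                  rw [div_le_one (by linarith)]; exact hq'
              _ = C1 := Real.rpow_one _
    gcongr
  have e3 : (L : ℝ) ^ n2 * (1 / (l * (L : ℝ) ^ (q + 1))) ≤ B ^ n2 * (C1 * R ^ (-(1 / q) : ℝ)) := by
    have h1 := pow_quot hL0 hL (k := q + 1) (w := n2) hw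
    have h2 : 1 / l ≤ C1 * R ^ q := by
      rw [div_le_iff₀ hl]; exact hl2
    have h3 : R ^ q / B ^ (q + 1) ≤ R⁻¹ := by
      rw [div_le_iff₀ (by positivity)]
      calc R ^ q = R⁻¹ * R ^ (q + 1) := by rw [pow_succ]; field_simp
        _ ≤ R⁻¹ * B ^ (q + 1) := by gcongr
    calc (L : ℝ) ^ n2 * (1 / (l * (L : ℝ) ^ (q + 1)))
        = ((L : ℝ) ^ n2 / (L : ℝ) ^ (q + 1)) * (1 / l) := by field_simp
      _ ≤ (B ^ n2 / B ^ (q + 1)) * (C1 * R ^ q) := by gcongr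
      _ = B ^ n2 * (C1 * (R ^ q / B ^ (q + 1))) := by ring
      _ ≤ B ^ n2 * (C1 * R⁻¹) := by gcongr
      _ ≤ _ := by gcongr
  have hmain : ‖SD (φ 0) a L []‖ ^ n2 ≤ K * R ^ ((n2 : ℝ) - 1 / (2 * q)) := by
    have h1 : ‖SD (φ 0) a L []‖ ^ n2 = (L : ℝ) ^ n2 * (‖SD (φ 0) a L []‖ / L) ^ n2 := by
      rw [div_pow]; field_simp
    rw [h1]
    calc (L : ℝ) ^ n2 * (‖SD (φ 0) a L []‖ / L) ^ n2
        ≤ (L : ℝ) ^ n2 * (CT q C1 * (1 + Real.log L) ^ q *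
      (1 / L + l ^ ((1 : ℝ) / q) + 1 / (l * (L : ℝ) ^ (q + 1)))) := by
          gcongr
      _ = CT q C1 * (1 + Real.log L) ^ q * ((L : ℝ) ^ n2 * (1 / L) +
          (L : ℝ) ^ n2 * l ^ ((1 : ℝ) / q) +
          (L : ℝ) ^ n2 * (1 / (l * (L : ℝ) ^ (q + 1)))) := by ring
      _ ≤ CT q C1 * ((C2 * C1) * R ^ (1 / (2 * q) : ℝ)) *
          (B ^ n2 * (C1 * R ^ (-(1 / q) : ℝ)) +
          B ^ n2 * (C1 * R ^ (-(1 / q) : ℝ)) +
          B ^ n2 * (C1 * R ^ (-(1 / q) : ℝ))) := by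
          gcongr
      _ = K * (R ^ (1 / (2 * q) : ℝ) * (R ^ n2 * R ^ (-(1 / q) : ℝ))) := by
          rw [hK, hB, mul_pow]; ring
      _ = _ := by
          rw [← Real.rpow_natCast R n2, ← Real.rpow_add hR0, ← Real.rpow_add hR0]
          congr 2
          have : (q : ℝ) ≠ 0 := by positivity
          field_simp
          ring
  have hfin : ‖SD (φ 0) a L []‖ ^ n2 ≤ (K * R ^ (1 - 1 / (2 * q * 2 ^ q) : ℝ)) ^ n2 := by
    refine hmain.trans ?_
    rw [mul_pow, ← Real.rpow_natCast (R ^ (1 - 1 / (2 * q * 2 ^ q) : ℝ)) n2, ← Real.rpow_mul hR0.le]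
    have h1 : (1 - 1 / (2 * q * 2 ^ q) : ℝ) * n2 = (n2 : ℝ) - 1 / (2 * q) := by
      rw [hn2]; push_cast; field_simp
    rw [h1]
    have h2 : K ≤ K ^ n2 := by
      calc K = K ^ 1 := (pow_one K).symm
        _ ≤ _ := pow_le_pow_right₀ hK1 hw1
    gcongr
  exact le_of_pow_le_pow_left₀ (by omega) (by positivity) hfin

end Pool.Agent.H472.PV
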