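import Pool.Agent.H472.PV.Interval

/-!
The kernel of a polynomial: sums of `P(d)^{it}` over all integers `d` with `1 ≤ P(d) ≤ N`.
-/

set_option autoImplicit false

namespace Pool.Agent.H472.PV

open Finset
open Pool.Agent.H469R2.NK (e norm_e)

/-- `y^{it}` -/
noncomputable def pw (t y : ℝ) : ℂ := Complex.exp (((t * Real.log y : ℝ) : ℂ) * Complex.I)

theorem pw_norm (t y : ℝ) : ‖pw t y‖ = 1 := Complex.norm_exp_ofReal_mul_I _

theorem norm_run (k : ℕ) (ρ : Fin k → ℂ) (β : ℝ) (F : ℝ → ℝ) (hβ : β ≠ 0)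
    (hF : ∀ x : ℝ, |F x| = |β| * ∏ i, ‖(x : ℂ) - ρ i‖) (t : ℝ) (s : Finset ℤ) (hpos : ∀ n ∈ s, 0 < F n) :
    ‖∑ n ∈ s, pw t (F n)‖ = ‖∑ n ∈ s, e (PH ρ (|t| / (2 * Real.pi)) 0 n)‖ := by
  have hpi := Real.pi_pos
  set S : ℤ → ℝ := fun n => ∑ i, Real.log ‖(((n : ℤ) : ℝ) : ℂ) - ρ i‖ with hS
  have h1 : ∀ n ∈ s, pw t (F n) = pw t |β| * Complex.exp (((t * S n : ℝ) : ℂ) * Complex.I) := by
    intro n hn
    have h2 := hpos n hn
    have h3 := hF (n : ℝ)
    rw [abs_of_pos h2] at h3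
    have hβ0 : 0 < |β| := abs_pos.2 hβ
    have h4 : ∀ i, ‖(((n : ℤ) : ℝ) : ℂ) - ρ i‖ ≠ 0 := by
      intro i h
      have : ∏ i, ‖(((n : ℤ) : ℝ) : ℂ) - ρ i‖ = 0 := prod_eq_zero (mem_univ i) h
      rw [this, mul_zero] at h3
      linarith
    have h5 : Real.log (F n) = Real.log |β| + S n := by
      rw [h3, Real.log_mul hβ0.ne' (prod_ne_zero_iff.2 fun i _ => h4 i), Real.log_prod (fun i _ => h4 i)]
    unfold pw
    rw [h5, ← Complex.exp_add]
    congr 1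
    push_cast
    ring
  rw [sum_congr rfl h1, ← mul_sum, norm_mul, pw_norm, one_mul]
  rcases le_or_gt 0 t with ht | ht
  · congr 1
    apply sum_congr rfl
    intro n _
    unfold e
    rw [abs_of_nonneg ht]
    congr 2
    norm_cast
    simp only [PH, hS]
    field_simp
  · rw [← RCLike.norm_conj, map_sum]
    congr 1
    apply sum_congr rfl
    intro n _
    unfold e
    rw [abs_of_neg ht, ← Complex.exp_conj, map_mul, Complex.conj_I, Complex.conj_ofReal]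
    congr 1
    rw [mul_neg, ← neg_mul, ← Complex.ofReal_neg]
    congr 2
    simp only [PH, hS]
    field_simp

/-- the exponent -/
noncomputable def dl (K q : ℕ) : ℝ := 1 / (2 * (K * q : ℕ) * 2 ^ (K * q))

theorem dl_pos (K q : ℕ) (hK : 1 ≤ K) (hq : 1 ≤ q) : 0 < dl K q := by
  unfold dl
  have : (0 : ℝ) < ((K * q : ℕ) : ℝ) := by exact_mod_cast Nat.mul_pos hK hq
  positivity

theorem dl_le (K q : ℕ) (hK : 1 ≤ K) (hq : 1 ≤ q) : dl K q ≤ 1 / 2 := by
  unfold dl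
  have h1 : (1 : ℝ) ≤ ((K * q : ℕ) : ℝ) := by exact_mod_cast Nat.mul_pos hK hq
  have h2 : (1 : ℝ) ≤ 2 ^ (K * q) := one_le_pow₀ (by norm_num)
  rw [div_le_div_iff₀ (by positivity) (by norm_num)]
  nlinarith

theorem dl_mono (k K q : ℕ) (hk : 1 ≤ k) (hkK : k ≤ K) (hq : 1 ≤ q) : dl K q ≤ dl k q := by
  unfold dl
  have h0 : (0 : ℝ) < ((k * q : ℕ) : ℝ) := by exact_mod_cast Nat.mul_pos hk hq
  have h1 : k * q ≤ K * q := Nat.mul_le_mul_right q hkK
  have h1' : ((k * q : ℕ) : ℝ) ≤ ((K * q : ℕ) : ℝ) := by exact_mod_cast h1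
  have h2 : (2 : ℝ) ^ (k * q) ≤ 2 ^ (K * q) := pow_le_pow_right₀ (by norm_num) h1
  apply one_div_le_one_div_of_le (by positivity)
  gcongr

/-- a run on which the polynomial varies by a factor at most two -/
theorem run (K q : ℕ) (hq : 2 ≤ q) : ∃ C : ℝ, 1 ≤ C ∧ ∀ k : ℕ, 1 ≤ k → k ≤ K → ∀ (ρ : Fin k → ℂ),
    (∀ f : ℂ → ℂ, ∑ i, f ((starRingEnd ℂ) (ρ i)) = ∑ i, f (ρ i)) → ∀ (β : ℝ) (F : ℝ → ℝ), β ≠ 0 →
    (∀ x : ℝ, |F x| = |β| * ∏ i, ‖(x : ℂ) - ρ i‖) → ∀ (N Y t : ℝ), 1 ≤ Y → N ≤ |β| * Y ^ k →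
    Y ≤ 7 * (|t| / (2 * Real.pi)) → |t| / (2 * Real.pi) ≤ Real.sqrt Y ^ (q - 1) →
    ∀ (a b : ℤ) (X : ℝ), 0 < X → (∀ x : ℝ, a ≤ x → x ≤ b → X ≤ F x ∧ F x ≤ 2 * X ∧ F x ≤ N) →
      ‖∑ n ∈ Icc a b, pw t (F n)‖ ≤ C * Y ^ (1 - dl K q : ℝ) := by
  set Wf : ℕ → ℝ := fun k => 1 + 4 * k * (1 + 2 * k) ^ k with hWf
  have hW1 : ∀ k, 1 ≤ Wf k := by
    intro k
    have : (0 : ℝ) ≤ 4 * k * (1 + 2 * k) ^ k := by positivity
    simp only [hWf]
    linarith
  have hch : ∀ k : ℕ, ∃ C : ℝ, 1 ≤ C ∧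
    ∀ (ρ : Fin k → ℂ), (∀ f : ℂ → ℂ, ∑ i, f ((starRingEnd ℂ) (ρ i)) = ∑ i, f (ρ i)) →
      ∀ (κ R : ℝ), 1 ≤ R → R ≤ 7 * κ → κ ≤ 7 * R ^ (q - 1) →
      ∀ a b : ℤ, (b : ℝ) - a ≤ Wf k * R →
      (∀ x : ℝ, a ≤ x → x ≤ b → ∀ i, R / Wf k ≤ ‖(x : ℂ) - ρ i‖) →
      (∀ x : ℝ, a ≤ x → x ≤ b → ∃ i, ‖(x : ℂ) - ρ i‖ ≤ Wf k * R) →
      ‖∑ n ∈ Icc a b, e (PH ρ κ 0 n)‖ ≤ C * R ^ (1 - 1 / (2 * (k * q : ℕ) * 2 ^ (k * q)) : ℝ) :=
    fun k => interval k q hq (Wf k) 7 (hW1 k) (by norm_num)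
  choose Cf hCf1 hCf using hch
  refine ⟨∑ k ∈ range (K + 1), (Cf k + 2 * Wf k) + 1, ?_, ?_⟩
  · have : 0 ≤ ∑ k ∈ range (K + 1), (Cf k + 2 * Wf k) := sum_nonneg fun k _ => by
      have := hCf1 k
      have := hW1 k
      linarith
    linarith
  intro k hk1 hkK ρ hc β F hβ hF N Y t hY hN hκ1 hκ2 a b X hX hrun
  have hCk : Cf k + 2 * Wf k ≤ ∑ k ∈ range (K + 1), (Cf k + 2 * Wf k) + 1 := by
    have h1 : Cf k + 2 * Wf k ≤ ∑ k ∈ range (K + 1), (Cf k + 2 * Wf k) :=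
      single_le_sum (f := fun k => Cf k + 2 * Wf k) (fun i _ => by
        have := hCf1 i
        have := hW1 i
        linarith) (mem_range.2 (by omega))
    linarith
  have hCfk := hCf1 k
  have hWk := hW1 k
  have hdl1 := dl_le K q (by omega) (by omega)
  have hdl0 := dl_pos K q (by omega) (by omega)
  have hY0 : 0 < Y := by linarith
  have hYp : (1 : ℝ) ≤ Y ^ (1 - dl K q : ℝ) := Real.one_le_rpow hY (by linarith)
  rcases lt_or_ge b a with hba | hab
  · rw [Icc_eq_empty (by omega)]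
    simp only [sum_empty, norm_zero]
    have : 0 ≤ ∑ k ∈ range (K + 1), (Cf k + 2 * Wf k) + 1 := by linarith
    positivity
  have hab' : (a : ℝ) ≤ b := by exact_mod_cast hab
  have hβ0 : 0 < |β| := abs_pos.2 hβ
  have hprod : ∀ x : ℝ, a ≤ x → x ≤ b → X ≤ |β| * ∏ i, ‖(x : ℂ) - ρ i‖ ∧
      |β| * ∏ i, ‖(x : ℂ) - ρ i‖ ≤ 2 * X ∧ |β| * ∏ i, ‖(x : ℂ) - ρ i‖ ≤ N := by
    intro x h1 h2
    have h3 := hrun x h1 h2
    rw [← hF, abs_of_pos (by linarith)]
    exact h3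
  have hlen : ∀ x : ℝ, a ≤ x → x ≤ b → ∀ i, (b : ℝ) - a ≤ (Wf k - 1) * ‖(x : ℂ) - ρ i‖ := by
    intro x h1 h2 i
    have h3 := len_le k ρ a b x hab' (by
      intro y z e1 e2 e3 e4
      have h4 := hprod y e1 e2
      have h5 := hprod z e3 e4
      have h6 : |β| * ∏ i, ‖(y : ℂ) - ρ i‖ ≤ |β| * (2 * ∏ i, ‖(z : ℂ) - ρ i‖) := by linarith
      exact le_of_mul_le_mul_left h6 hβ0) h1 h2 i
    simp only [hWf]
    linarith
  have : Nonempty (Fin k) := ⟨⟨0, hk1⟩⟩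
  obtain ⟨i0, hi0⟩ := Finite.exists_min (fun i => ‖((a : ℝ) : ℂ) - ρ i‖)
  set R : ℝ := ‖((a : ℝ) : ℂ) - ρ i0‖ with hR
  have hR0 : 0 ≤ R := norm_nonneg _
  have hlenR : (b : ℝ) - a ≤ (Wf k - 1) * R := hlen a le_rfl hab' i0
  -- `R ≤ Y`
  have hRY : R ≤ Y := by
    apply le_of_pow_le_pow_left₀ (n := k) (by omega) hY0.le
    have h1 : |β| * R ^ k ≤ |β| * Y ^ k := by
      refine le_trans ?_ ((hprod a le_rfl hab').2.2.trans hN)
      apply mul_le_mul_of_nonneg_left _ hβ0.le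
      calc R ^ k = ∏ _i : Fin k, R := by simp
        _ ≤ _ := prod_le_prod (fun _ _ => hR0) (fun i _ => hi0 i)
    exact le_of_mul_le_mul_left h1 hβ0
  have hsqY : 1 ≤ Real.sqrt Y := by rw [Real.one_le_sqrt]; exact hY
  have hsqle : Real.sqrt Y ≤ Y ^ (1 - dl K q : ℝ) := by
    rw [Real.sqrt_eq_rpow]
    exact Real.rpow_le_rpow_of_exponent_le hY (by linarith)
  rcases lt_or_ge R (Real.sqrt Y) with hcase | hcase
  · -- trivial bound
    calc ‖∑ n ∈ Icc a b, pw t (F n)‖ ≤ ∑ n ∈ Icc a b, ‖pw t (F n)‖ := norm_sum_le _ _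
      _ = ((Icc a b).card : ℝ) := by simp only [pw_norm, sum_const, nsmul_eq_mul, mul_one]
      _ = (b : ℝ) - a + 1 := by
          rw [Int.card_Icc]
          have h1 : ((b + 1 - a).toNat : ℤ) = b + 1 - a := Int.toNat_of_nonneg (by omega)
          have h2 : (((b + 1 - a).toNat : ℤ) : ℝ) = ((b + 1 - a : ℤ) : ℝ) := by rw [h1]
          push_cast at h2
          rw [h2]
          ring
      _ ≤ (Wf k - 1) * Real.sqrt Y + 1 * Real.sqrt Y := by
          have : (Wf k - 1) * R ≤ (Wf k - 1) * Real.sqrt Y :=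
            mul_le_mul_of_nonneg_left hcase.le (by linarith)
          linarith
      _ = Wf k * Real.sqrt Y := by ring
      _ ≤ (∑ k ∈ range (K + 1), (Cf k + 2 * Wf k) + 1) * Y ^ (1 - dl K q : ℝ) := by
          have h0 : 0 ≤ Real.sqrt Y := by linarith
          have h1 : Wf k ≤ (∑ k ∈ range (K + 1), (Cf k + 2 * Wf k) + 1) := by linarith
          exact mul_le_mul h1 hsqle h0 (by linarith)
  · have hR1 : 1 ≤ R := hsqY.trans hcase
    have hpos : ∀ n ∈ Icc a b, 0 < F n := by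
      intro n hn
      rw [mem_Icc] at hn
      have h1 := hrun n (by exact_mod_cast hn.1) (by exact_mod_cast hn.2)
      linarith [h1.1]
    rw [norm_run k ρ β F hβ hF t (Icc a b) hpos]
    have h1 := hCf k ρ hc (|t| / (2 * Real.pi)) R hR1 (hRY.trans hκ1) (by
      have h2 : Real.sqrt Y ^ (q - 1) ≤ R ^ (q - 1) := pow_le_pow_left₀ (by linarith) hcase _
      have h3 : 0 ≤ R ^ (q - 1) := by positivity
      linarith) a b (by linarith) (by
      intro x e1 e2 i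
      rw [div_le_iff₀ (by linarith)]
      have h2 := hlen x e1 e2 i
      have h3 : R ≤ ‖(x : ℂ) - ρ i‖ + (b - a) := by
        calc R ≤ ‖((a : ℝ) : ℂ) - ρ i‖ := hi0 i
          _ = ‖((x : ℂ) - ρ i) + (((a : ℝ) : ℂ) - x)‖ := by congr 1; ring
          _ ≤ ‖(x : ℂ) - ρ i‖ + ‖((a : ℝ) : ℂ) - x‖ := norm_add_le _ _
          _ ≤ _ := by
              rw [← Complex.ofReal_sub, Complex.norm_real, Real.norm_eq_abs]
              have : |(a : ℝ) - x| ≤ b - a := by rw [abs_le]; constructor <;> linarith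
              linarith
      linarith) (by
      intro x e1 e2
      refine ⟨i0, ?_⟩
      calc ‖(x : ℂ) - ρ i0‖ = ‖(((a : ℝ) : ℂ) - ρ i0) + ((x : ℂ) - ((a : ℝ) : ℂ))‖ := by congr 1; ring
        _ ≤ R + ‖(x : ℂ) - ((a : ℝ) : ℂ)‖ := norm_add_le _ _
        _ ≤ R + (b - a) := by
            rw [← Complex.ofReal_sub, Complex.norm_real, Real.norm_eq_abs]
            have : |x - (a : ℝ)| ≤ b - a := by rw [abs_le]; constructor <;> linarith
            linarith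
        _ ≤ Wf k * R := by linarith)
    refine h1.trans ?_
    have h2 : (1 - 1 / (2 * (k * q : ℕ) * 2 ^ (k * q)) : ℝ) ≤ 1 - dl K q := by
      have := dl_mono k K q hk1 hkK (by omega)
      unfold dl at this ⊢
      linarith
    calc Cf k * R ^ (1 - 1 / (2 * (k * q : ℕ) * 2 ^ (k * q)) : ℝ)
        ≤ Cf k * R ^ (1 - dl K q) := by
          have := Real.rpow_le_rpow_of_exponent_le hR1 h2
          gcongr
      _ ≤ Cf k * Y ^ (1 - dl K q) := by
          have := Real.rpow_le_rpow hR0 hRY (by linarith : (0:ℝ) ≤ 1 - dl K q)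
          gcongr
      _ ≤ _ := by
          have : Cf k ≤ (∑ k ∈ range (K + 1), (Cf k + 2 * Wf k) + 1) := by linarith
          gcongr

open Classical in
open Polynomial in
/-- the part of the kernel with `X ≤ P(d) < 2 X` -/
theorem dyadic (K q : ℕ) (hq : 2 ≤ q) : ∃ C : ℝ, 1 ≤ C ∧ ∀ P : ℝ[X], 1 ≤ P.natDegree → P.natDegree ≤ K →
    ∀ (N Y t : ℝ), 1 ≤ Y → N ≤ |P.leadingCoeff| * Y ^ P.natDegree →
    Y ≤ 7 * (|t| / (2 * Real.pi)) → |t| / (2 * Real.pi) ≤ Real.sqrt Y ^ (q - 1) →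
    ∀ (a b : ℤ) (x : ℝ), 0 < x →
      ‖∑ n ∈ Icc a b, (if x ≤ P.eval (n : ℝ) ∧ P.eval (n : ℝ) < 2 * x ∧ P.eval (n : ℝ) ≤ N
        then pw t (P.eval (n : ℝ)) else 0)‖ ≤ C * Y ^ (1 - dl K q : ℝ) := by
  obtain ⟨C, hC, hrun⟩ := run K q hq
  refine ⟨(3 * K + 1) * C + 3 * K, by
    have : (0 : ℝ) ≤ K := Nat.cast_nonneg _
    nlinarith, ?_⟩
  intro P hk1 hkK N Y t hY hN hκ1 hκ2 a b x hx
  obtain ⟨ρ, hc, hF⟩ := exists_roots P P.natDegree rfl
  have hP0 : P ≠ 0 := by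
    intro h
    rw [h, natDegree_zero] at hk1
    omega
  have hβ : P.leadingCoeff ≠ 0 := leadingCoeff_ne_zero.2 hP0
  have hdl1 := dl_le K q (by omega) (by omega)
  have hY0 : 0 < Y := by linarith
  have hYp : (1 : ℝ) ≤ Y ^ (1 - dl K q : ℝ) := Real.one_le_rpow hY (by linarith)
  have hne : ∀ c : ℝ, P - Polynomial.C c ≠ 0 := by
    intro c h
    have h1 : P = Polynomial.C c := sub_eq_zero.1 h
    rw [h1, natDegree_C] at hk1
    omega
  have hdeg : ∀ c : ℝ, (P - Polynomial.C c).natDegree ≤ K := by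
    intro c
    rw [natDegree_sub_C]
    exact hkK
  set Zc : ℝ → Finset ℝ := fun c => (P - Polynomial.C c).roots.toFinset with hZc
  have hZcard : ∀ c, (Zc c).card ≤ K := fun c =>
    (Multiset.toFinset_card_le _).trans ((card_roots' _).trans (hdeg c))
  have hZmem : ∀ c y : ℝ, P.eval y = c → y ∈ Zc c := by
    intro c y h
    simp only [hZc]
    rw [Multiset.mem_toFinset, mem_roots (hne c), IsRoot.def, eval_sub, eval_C, h, sub_self]
  set Z : Finset ℝ := Zc x ∪ (Zc (2 * x) ∪ Zc N) with hZ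
  have hZK : Z.card ≤ 3 * K := by
    have h1 := card_union_le (Zc x) (Zc (2 * x) ∪ Zc N)
    have h2 := card_union_le (Zc (2 * x)) (Zc N)
    have h3 := hZcard x
    have h4 := hZcard (2 * x)
    have h5 := hZcard N
    rw [hZ]
    omega
  have hK0 : (0 : ℝ) ≤ K := Nat.cast_nonneg _
  have hmain := split (fun n : ℤ => if x ≤ P.eval (n : ℝ) ∧ P.eval (n : ℝ) < 2 * x ∧ P.eval (n : ℝ) ≤ N
        then pw t (P.eval (n : ℝ)) else 0) (by
      intro n
      split_ifs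
      · exact (pw_norm _ _).le
      · simp) (C * Y ^ (1 - dl K q : ℝ)) (by positivity) Z (3 * K) a b ((card_filter_le _ _).trans hZK) (by
      intro a' b' h1 h2 h3 h4
      have h2' : (a' : ℝ) ≤ b' := by exact_mod_cast h2
      have hcont : ContinuousOn (fun y : ℝ => P.eval y) (Set.Icc (a' : ℝ) b') := P.continuous.continuousOn
      have hside : ∀ c : ℝ, Zc c ⊆ Z → (c < P.eval (a' : ℝ) → ∀ y : ℝ, a' ≤ y → y ≤ b' → c < P.eval y) ∧
          (P.eval (a' : ℝ) < c → ∀ y : ℝ, a' ≤ y → y ≤ b' → P.eval y < c) := by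
        intro c hcZ
        have hno : ∀ y : ℝ, a' ≤ y → y ≤ b' → P.eval y ≠ c :=
          fun y e1 e2 h => h4 y (hcZ (hZmem c y h)) ⟨e1, e2⟩
        constructor
        · intro h
          exact sign_gt (fun y : ℝ => P.eval y) a' b' c a' hcont hno le_rfl h2' h
        · intro h y e1 e2
          have h5 := sign_gt (fun y : ℝ => -P.eval y) a' b' (-c) a' hcont.neg
            (fun y e1 e2 h => hno y e1 e2 (by linarith)) le_rfl h2' (by linarith) y e1 e2
          linarith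
      have hsx := hside x subset_union_left
      have hs2x := hside (2 * x) (subset_union_left.trans subset_union_right)
      have hsN := hside N (subset_union_right.trans subset_union_right)
      have hna : ∀ c : ℝ, Zc c ⊆ Z → P.eval (a' : ℝ) ≠ c := fun c hcZ h =>
        h4 a' (hcZ (hZmem c a' h)) ⟨le_rfl, h2'⟩
      by_cases hcond : x < P.eval (a' : ℝ) ∧ P.eval (a' : ℝ) < 2 * x ∧ P.eval (a' : ℝ) < N
      · have hall : ∀ y : ℝ, a' ≤ y → y ≤ b' → x < P.eval y ∧ P.eval y < 2 * x ∧ P.eval y < N :=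
          fun y e1 e2 => ⟨hsx.1 hcond.1 y e1 e2, hs2x.2 hcond.2.1 y e1 e2, hsN.2 hcond.2.2 y e1 e2⟩
        have h5 : ∑ n ∈ Icc a' b', (if x ≤ P.eval (n : ℝ) ∧ P.eval (n : ℝ) < 2 * x ∧ P.eval (n : ℝ) ≤ N
            then pw t (P.eval (n : ℝ)) else 0) = ∑ n ∈ Icc a' b', pw t (P.eval (n : ℝ)) := by
          apply sum_congr rfl
          intro n hn
          rw [mem_Icc] at hn
          have h6 := hall n (by exact_mod_cast hn.1) (by exact_mod_cast hn.2)
          rw [if_pos ⟨h6.1.le, h6.2.1, h6.2.2.le⟩]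
        rw [h5]
        exact hrun P.natDegree hk1 hkK ρ hc P.leadingCoeff (fun y => P.eval y) hβ hF N Y t hY hN hκ1 hκ2
          a' b' x hx (fun y e1 e2 => ⟨(hall y e1 e2).1.le, (hall y e1 e2).2.1.le, (hall y e1 e2).2.2.le⟩)
      · have h5 : ∑ n ∈ Icc a' b', (if x ≤ P.eval (n : ℝ) ∧ P.eval (n : ℝ) < 2 * x ∧ P.eval (n : ℝ) ≤ N
            then pw t (P.eval (n : ℝ)) else 0) = 0 := by
          apply sum_eq_zero
          intro n hn
          rw [mem_Icc] at hn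
          have e1 : (a' : ℝ) ≤ n := by exact_mod_cast hn.1
          have e2 : (n : ℝ) ≤ b' := by exact_mod_cast hn.2
          rw [if_neg]
          rintro ⟨g1, g2, g3⟩
          apply hcond
          refine ⟨?_, ?_, ?_⟩
          · rcases lt_trichotomy (P.eval (a' : ℝ)) x with h | h | h
            · have := hsx.2 h n e1 e2
              linarith
            · exact absurd h (hna x subset_union_left)
            · exact h
          · rcases lt_trichotomy (P.eval (a' : ℝ)) (2 * x) with h | h | h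
            · exact h
            · exact absurd h (hna (2 * x) (subset_union_left.trans subset_union_right))
            · have := hs2x.1 h n e1 e2
              linarith
          · rcases lt_trichotomy (P.eval (a' : ℝ)) N with h | h | h
            · exact h
            · exact absurd h (hna N (subset_union_right.trans subset_union_right))
            · have := hsN.1 h n e1 e2
              linarith
        rw [h5, norm_zero]
        positivity)
  refine hmain.trans ?_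
  push_cast
  calc (3 * (K : ℝ) + 1) * (C * Y ^ (1 - dl K q : ℝ)) + 3 * K
      ≤ (3 * (K : ℝ) + 1) * (C * Y ^ (1 - dl K q : ℝ)) + 3 * K * Y ^ (1 - dl K q : ℝ) := by
        have := mul_le_mul_of_nonneg_left hYp (by positivity : (0:ℝ) ≤ 3 * K)
        linarith
    _ = _ := by ring

end Pool.Agent.H472.PV
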