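import Pool.Agent.H472.PV.KerF

/-!
The kernel of a polynomial, all values up to `N`; the number of the values.
-/

set_option autoImplicit false

namespace Pool.Agent.H472.PV

open Finset

/-- the size `(N / |β|)^(1/k)` of a polynomial of degree `k` and leading coefficient `β` -/
noncomputable def Ysz (N : ℕ) (P : Polynomial ℝ) : ℝ := ((N : ℝ) / |P.leadingCoeff|) ^ ((1 : ℝ) / P.natDegree)

theorem Ysz_pow (N : ℕ) (P : Polynomial ℝ) (hk : 1 ≤ P.natDegree) :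
    |P.leadingCoeff| * Ysz N P ^ P.natDegree = N := by
  have hP0 : P ≠ 0 := by
    intro h
    rw [h, Polynomial.natDegree_zero] at hk
    omega
  have hβ : 0 < |P.leadingCoeff| := abs_pos.2 (Polynomial.leadingCoeff_ne_zero.2 hP0)
  have hk' : (P.natDegree : ℝ) ≠ 0 := by
    have : P.natDegree ≠ 0 := by omega
    exact_mod_cast this
  unfold Ysz
  rw [← Real.rpow_natCast, ← Real.rpow_mul (by positivity), one_div_mul_cancel hk', Real.rpow_one]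
  field_simp

theorem Ysz_pos (N : ℕ) (P : Polynomial ℝ) (hN : 1 ≤ N) (hk : 1 ≤ P.natDegree) : 0 < Ysz N P := by
  have hP0 : P ≠ 0 := by
    intro h
    rw [h, Polynomial.natDegree_zero] at hk
    omega
  have hβ : 0 < |P.leadingCoeff| := abs_pos.2 (Polynomial.leadingCoeff_ne_zero.2 hP0)
  have hN0 : (0 : ℝ) < N := by exact_mod_cast hN
  unfold Ysz
  positivity

open Classical in
/-- decomposition into dyadic parts -/
theorem dec (N : ℕ) (y : ℝ) (v : ℂ) : (if 1 ≤ y ∧ y ≤ N then v else 0) =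
    ∑ j ∈ range (Nat.log 2 N + 1), (if (2 : ℝ) ^ j ≤ y ∧ y < 2 * (2 : ℝ) ^ j ∧ y ≤ N then v else 0) := by
  by_cases h : 1 ≤ y ∧ y ≤ N
  · rw [if_pos h]
    obtain ⟨h1, h2⟩ := h
    set m : ℕ := ⌊y⌋₊ with hm
    have hm1 : 1 ≤ m := Nat.le_floor (by exact_mod_cast h1)
    have hm2 : (m : ℝ) ≤ y := Nat.floor_le (by linarith)
    have hm3 : y < m + 1 := Nat.lt_floor_add_one y
    have hmN : m ≤ N := by exact_mod_cast hm2.trans h2
    set j0 : ℕ := Nat.log 2 m with hj0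
    have hj1 : 2 ^ j0 ≤ m := Nat.pow_log_le_self 2 (by omega)
    have hj2 : m < 2 ^ (j0 + 1) := Nat.lt_pow_succ_log_self (by norm_num) m
    have hj3 : j0 ≤ Nat.log 2 N := Nat.log_mono_right hmN
    have a1 : (2 : ℝ) ^ j0 ≤ y := by
      have : ((2 ^ j0 : ℕ) : ℝ) ≤ m := by exact_mod_cast hj1
      push_cast at this
      linarith
    have a2 : y < 2 * (2 : ℝ) ^ j0 := by
      have : ((m + 1 : ℕ) : ℝ) ≤ ((2 ^ (j0 + 1) : ℕ) : ℝ) := by exact_mod_cast hj2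
      push_cast at this
      rw [pow_succ] at this
      linarith
    rw [sum_eq_single j0]
    · rw [if_pos ⟨a1, a2, h2⟩]
    · intro j _ hne
      rw [if_neg]
      rintro ⟨b1, b2, _⟩
      rcases lt_or_gt_of_ne hne with hlt | hlt
      · have h3 : (2 : ℝ) ^ (j + 1) ≤ 2 ^ j0 := pow_le_pow_right₀ (by norm_num) hlt
        rw [pow_succ] at h3
        linarith
      · have h3 : (2 : ℝ) ^ (j0 + 1) ≤ 2 ^ j := pow_le_pow_right₀ (by norm_num) hlt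
        rw [pow_succ] at h3
        linarith
    · intro hnot
      exact absurd (mem_range.2 (by omega)) hnot
  · rw [if_neg h]
    symm
    apply sum_eq_zero
    intro j _
    rw [if_neg]
    rintro ⟨b1, _, b3⟩
    apply h
    refine ⟨?_, b3⟩
    have : (1 : ℝ) ≤ 2 ^ j := one_le_pow₀ (by norm_num)
    linarith

open Classical in
/-- **The kernel.** -/
theorem kerF (A μ : ℝ) (K : ℕ) (hμ : 0 < μ) (hK : 1 ≤ K) : ∃ δ C : ℝ, 0 < δ ∧ 1 ≤ C ∧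
    ∀ N : ℕ, 1 ≤ N → ∀ P : Polynomial ℝ, 1 ≤ P.natDegree → P.natDegree ≤ K →
    (N : ℝ) ^ μ ≤ Ysz N P → Ysz N P ≤ N → ∀ t : ℝ, (N : ℝ) ≤ |t| → |t| ≤ (N : ℝ) ^ A → ∀ a b : ℤ,
      ‖∑ n ∈ Icc a b, (if 1 ≤ P.eval (n : ℝ) ∧ P.eval (n : ℝ) ≤ N then pw t (P.eval (n : ℝ)) else 0)‖ ≤
        C * Ysz N P * (N : ℝ) ^ (-δ) := by
  obtain ⟨q, hq⟩ : ∃ q : ℕ, q = ⌈2 * A / μ⌉₊ + 2 := ⟨_, rfl⟩
  have hq2 : 2 ≤ q := by omega
  have hqr : 2 * A / μ ≤ ((q - 1 : ℕ) : ℝ) := by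
    have h1 := Nat.le_ceil (2 * A / μ)
    have h2 : (⌈2 * A / μ⌉₊ : ℝ) ≤ ((q - 1 : ℕ) : ℝ) := by
      exact_mod_cast (by omega : ⌈2 * A / μ⌉₊ ≤ q - 1)
    linarith
  have hqμ : A ≤ μ / 2 * ((q - 1 : ℕ) : ℝ) := by
    rw [div_le_iff₀ hμ] at hqr
    linarith
  obtain ⟨C, hC, hdy⟩ := dyadic K q hq2
  have hd0 := dl_pos K q hK (by omega)
  have hd1 := dl_le K q hK (by omega)
  set d : ℝ := dl K q with hd
  obtain ⟨C2, hC2, hlg⟩ := lgR 1 (μ * d / 2) (by positivity)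
  refine ⟨μ * d / 2, 2 * C2 * C, by positivity, by
    have := one_le_mul_of_one_le_of_one_le hC2 hC
    linarith, ?_⟩
  intro N hN P hk1 hkK hY1 hY2 t ht1 ht2 a b
  have hN1 : (1 : ℝ) ≤ N := by exact_mod_cast hN
  have hN0 : (0 : ℝ) < N := by linarith
  set Y : ℝ := Ysz N P with hYdef
  have hYpow := Ysz_pow N P hk1
  rw [← hYdef] at hYpow
  have hY : 1 ≤ Y := (Real.one_le_rpow hN1 hμ.le).trans hY1
  have hY0 : 0 < Y := by linarith
  have hpi := Real.pi_pos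
  have hpi3 := Real.pi_gt_three
  have hpi4 : Real.pi < 3.15 := Real.pi_lt_d2
  have ht0 : 0 < |t| := by linarith
  have hκ1 : Y ≤ 7 * (|t| / (2 * Real.pi)) := by
    have h1 : |t| ≤ 7 * (|t| / (2 * Real.pi)) := by
      rw [mul_div_assoc', le_div_iff₀ (by positivity)]
      nlinarith
    linarith
  have hκ2 : |t| / (2 * Real.pi) ≤ Real.sqrt Y ^ (q - 1) := by
    have h1 : |t| / (2 * Real.pi) ≤ |t| := div_le_self ht0.le (by linarith)
    have h2 : (N : ℝ) ^ (μ / 2) ≤ Real.sqrt Y := by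
      rw [Real.sqrt_eq_rpow]
      calc (N : ℝ) ^ (μ / 2) = ((N : ℝ) ^ μ) ^ (1 / 2 : ℝ) := by
            rw [← Real.rpow_mul hN0.le]; congr 1; ring
        _ ≤ Y ^ (1 / 2 : ℝ) := Real.rpow_le_rpow (by positivity) hY1 (by norm_num)
    calc |t| / (2 * Real.pi) ≤ |t| := h1
      _ ≤ (N : ℝ) ^ A := ht2
      _ ≤ (N : ℝ) ^ (μ / 2 * ((q - 1 : ℕ) : ℝ)) := Real.rpow_le_rpow_of_exponent_le hN1 hqμ
      _ = ((N : ℝ) ^ (μ / 2)) ^ (q - 1) := by rw [Real.rpow_mul hN0.le, Real.rpow_natCast]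
      _ ≤ _ := pow_le_pow_left₀ (by positivity) h2 _
  have hsum : ∑ n ∈ Icc a b, (if 1 ≤ P.eval (n : ℝ) ∧ P.eval (n : ℝ) ≤ N then pw t (P.eval (n : ℝ)) else 0) =
      ∑ j ∈ range (Nat.log 2 N + 1), ∑ n ∈ Icc a b, (if (2 : ℝ) ^ j ≤ P.eval (n : ℝ) ∧
        P.eval (n : ℝ) < 2 * (2 : ℝ) ^ j ∧ P.eval (n : ℝ) ≤ N then pw t (P.eval (n : ℝ)) else 0) := by
    rw [sum_comm]
    apply sum_congr rfl
    intro n _
    exact dec N _ _
  rw [hsum]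
  have hJ : ((Nat.log 2 N : ℕ) : ℝ) + 1 ≤ 2 * C2 * (N : ℝ) ^ (μ * d / 2) := by
    have h1 : ((Nat.log 2 N : ℕ) : ℝ) ≤ Real.logb 2 N := Real.natLog_le_logb N 2
    have h2 : Real.logb 2 N ≤ 2 * Real.log N := by
      unfold Real.logb
      have h3 := Real.log_two_gt_d9
      rw [div_le_iff₀ (by linarith)]
      have h4 : 0 ≤ Real.log N := Real.log_nonneg hN1
      nlinarith
    have h3 := hlg N hN1
    rw [pow_one] at h3
    linarith
  calc ‖∑ j ∈ range (Nat.log 2 N + 1), ∑ n ∈ Icc a b, (if (2 : ℝ) ^ j ≤ P.eval (n : ℝ) ∧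
        P.eval (n : ℝ) < 2 * (2 : ℝ) ^ j ∧ P.eval (n : ℝ) ≤ N then pw t (P.eval (n : ℝ)) else 0)‖
      ≤ ∑ j ∈ range (Nat.log 2 N + 1), ‖∑ n ∈ Icc a b, (if (2 : ℝ) ^ j ≤ P.eval (n : ℝ) ∧
        P.eval (n : ℝ) < 2 * (2 : ℝ) ^ j ∧ P.eval (n : ℝ) ≤ N then pw t (P.eval (n : ℝ)) else 0)‖ :=
        norm_sum_le _ _
    _ ≤ ∑ j ∈ range (Nat.log 2 N + 1), C * Y ^ (1 - d) := by
        apply sum_le_sum
        intro j _
        exact hdy P hk1 hkK N Y t hY hYpow.symm.le hκ1 hκ2 a b (2 ^ j) (by positivity)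
    _ = (((Nat.log 2 N : ℕ) : ℝ) + 1) * (C * Y ^ (1 - d)) := by
        rw [sum_const, card_range, nsmul_eq_mul]; push_cast; ring
    _ ≤ (2 * C2 * (N : ℝ) ^ (μ * d / 2)) * (C * (Y * (N : ℝ) ^ (-(μ * d)))) := by
        have h1 : Y ^ (1 - d) ≤ Y * (N : ℝ) ^ (-(μ * d)) := by
          rw [sub_eq_add_neg, Real.rpow_add hY0, Real.rpow_one]
          have h2 : Y ^ (-d) ≤ (N : ℝ) ^ (-(μ * d)) := by
            calc Y ^ (-d) ≤ ((N : ℝ) ^ μ) ^ (-d) :=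
                  Real.rpow_le_rpow_of_nonpos (by positivity) hY1 (by linarith)
              _ = _ := by rw [← Real.rpow_mul hN0.le]; congr 1; ring
          gcongr
        gcongr
    _ = 2 * C2 * C * Y * ((N : ℝ) ^ (μ * d / 2) * (N : ℝ) ^ (-(μ * d))) := by ring
    _ = _ := by
        rw [← Real.rpow_add hN0]
        congr 2
        ring

/-- a point with `|P| ≤ N` is close to a root -/
theorem near_root (N : ℕ) (hN : 1 ≤ N) (P : Polynomial ℝ) (hk : 1 ≤ P.natDegree) (ρ : Fin P.natDegree → ℂ)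
    (hF : ∀ x : ℝ, |P.eval x| = |P.leadingCoeff| * ∏ i, ‖(x : ℂ) - ρ i‖) (x : ℝ) (hx : |P.eval x| ≤ N) :
    ∃ i, ‖(x : ℂ) - ρ i‖ ≤ Ysz N P := by
  by_contra hcon
  push Not at hcon
  have hP0 : P ≠ 0 := by
    intro h
    rw [h, Polynomial.natDegree_zero] at hk
    omega
  have hβ : 0 < |P.leadingCoeff| := abs_pos.2 (Polynomial.leadingCoeff_ne_zero.2 hP0)
  have hY := Ysz_pos N P hN hk
  have h1 : ∏ _i : Fin P.natDegree, Ysz N P < ∏ i, ‖(x : ℂ) - ρ i‖ :=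
    prod_lt_prod_of_nonempty (fun _ _ => hY) (fun i _ => hcon i) ⟨⟨0, hk⟩, mem_univ _⟩
  rw [prod_const, card_univ, Fintype.card_fin] at h1
  have h2 : |P.leadingCoeff| * Ysz N P ^ P.natDegree < |P.leadingCoeff| * ∏ i, ‖(x : ℂ) - ρ i‖ :=
    mul_lt_mul_of_pos_left h1 hβ
  rw [Ysz_pow N P hk, ← hF] at h2
  linarith

/-- the number of the integers `n` with `1 ≤ P(n) ≤ N` -/
theorem count (N : ℕ) (hN : 1 ≤ N) (P : Polynomial ℝ) (hk : 1 ≤ P.natDegree) (a b : ℤ) :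
    (((Icc a b).filter (fun n : ℤ => 1 ≤ P.eval (n : ℝ) ∧ P.eval (n : ℝ) ≤ N)).card : ℝ) ≤
      P.natDegree * (2 * Ysz N P + 1) := by
  classical
  obtain ⟨ρ, -, hF⟩ := exists_roots P P.natDegree rfl
  have hY := Ysz_pos N P hN hk
  set Y := Ysz N P with hYd
  have hsub : (Icc a b).filter (fun n : ℤ => 1 ≤ P.eval (n : ℝ) ∧ P.eval (n : ℝ) ≤ N) ⊆
      univ.biUnion (fun i : Fin P.natDegree => Icc ⌈(ρ i).re - Y⌉ ⌊(ρ i).re + Y⌋) := by
    intro n hn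
    rw [mem_filter] at hn
    obtain ⟨_, h1, h2⟩ := hn
    obtain ⟨i, hi⟩ := near_root N hN P hk ρ hF n (by rw [abs_of_pos (by linarith)]; exact h2)
    rw [mem_biUnion]
    refine ⟨i, mem_univ _, ?_⟩
    have h3 : |(n : ℝ) - (ρ i).re| ≤ Y := by
      have h4 := Complex.abs_re_le_norm (((n : ℝ) : ℂ) - ρ i)
      rw [Complex.sub_re, Complex.ofReal_re] at h4
      exact h4.trans hi
    rw [abs_le] at h3
    rw [mem_Icc]
    exact ⟨Int.ceil_le.2 (by linarith), Int.le_floor.2 (by linarith)⟩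
  have h1 : (((Icc a b).filter (fun n : ℤ => 1 ≤ P.eval (n : ℝ) ∧ P.eval (n : ℝ) ≤ N)).card : ℝ) ≤
      ∑ i : Fin P.natDegree, ((Icc ⌈(ρ i).re - Y⌉ ⌊(ρ i).re + Y⌋).card : ℝ) := by
    exact_mod_cast (card_le_card hsub).trans card_biUnion_le
  refine h1.trans ?_
  calc ∑ i : Fin P.natDegree, ((Icc ⌈(ρ i).re - Y⌉ ⌊(ρ i).re + Y⌋).card : ℝ)
      ≤ ∑ i : Fin P.natDegree, (2 * Y + 1) := by
        apply sum_le_sum
        intro i _
        rw [Int.card_Icc]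
        have h2 := Int.floor_le ((ρ i).re + Y)
        have h3 := Int.le_ceil ((ρ i).re - Y)
        rcases le_or_gt 0 (⌊(ρ i).re + Y⌋ + 1 - ⌈(ρ i).re - Y⌉) with h4 | h4
        · have h5 : (((⌊(ρ i).re + Y⌋ + 1 - ⌈(ρ i).re - Y⌉).toNat : ℤ) : ℝ) =
              ((⌊(ρ i).re + Y⌋ + 1 - ⌈(ρ i).re - Y⌉ : ℤ) : ℝ) := by rw [Int.toNat_of_nonneg h4]
          push_cast at h5
          rw [h5]
          linarith
        · rw [Int.toNat_of_nonpos h4.le]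
          push_cast
          linarith
    _ = _ := by rw [sum_const, card_univ, Fintype.card_fin, nsmul_eq_mul]

/-- all these integers are bounded -/
theorem bdd (N : ℕ) (hN : 1 ≤ N) (P : Polynomial ℝ) (hk : 1 ≤ P.natDegree) : ∃ D : ℕ, ∀ n : ℤ,
    1 ≤ P.eval (n : ℝ) → P.eval (n : ℝ) ≤ N → |n| ≤ D := by
  obtain ⟨ρ, -, hF⟩ := exists_roots P P.natDegree rfl
  have hY := Ysz_pos N P hN hk
  refine ⟨⌈Ysz N P + ∑ i, ‖ρ i‖⌉₊, ?_⟩
  intro n h1 h2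
  obtain ⟨i, hi⟩ := near_root N hN P hk ρ hF n (by rw [abs_of_pos (by linarith)]; exact h2)
  have h3 : ‖((n : ℝ) : ℂ)‖ ≤ Ysz N P + ∑ i, ‖ρ i‖ := by
    calc ‖((n : ℝ) : ℂ)‖ = ‖(((n : ℝ) : ℂ) - ρ i) + ρ i‖ := by congr 1; ring
      _ ≤ ‖((n : ℝ) : ℂ) - ρ i‖ + ‖ρ i‖ := norm_add_le _ _
      _ ≤ _ := by
          have : ‖ρ i‖ ≤ ∑ i, ‖ρ i‖ := single_le_sum (fun i _ => norm_nonneg (ρ i)) (mem_univ i)
          linarith
  rw [Complex.norm_real, Real.norm_eq_abs] at h3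
  have h4 := h3.trans (Nat.le_ceil _)
  have h5 : ((|n| : ℤ) : ℝ) ≤ ((⌈Ysz N P + ∑ i, ‖ρ i‖⌉₊ : ℤ) : ℝ) := by
    push_cast
    exact h4
  exact_mod_cast h5

end Pool.Agent.H472.PV
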