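import Pool.Agent.H472.PV.Kernel
import Pool.Graph.R_seed8.R516.MSB
import Pool.Graph.R_seed8.R516.MSD

/-!
Mean values over well-spaced sets for coefficients supported on the values of few integer-valued polynomials.
-/

set_option autoImplicit false

namespace Pool.Agent.H472.PV

open Finset
open Pool.Agent.TH705.DL (ph ph_norm ph_eq Sep)
open Pool.Agent.R516.MS (KW lsW)
open Pool.Agent.R327.SI (lg_pow)

/-- the hypothesis on the finite set `B` of polynomials -/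
def Adm (N : ℕ) (μ c : ℝ) (K : ℕ) (B : Finset (Polynomial ℝ)) : Prop :=
  (∀ P ∈ B, 1 ≤ P.natDegree ∧ P.natDegree ≤ K ∧ ∀ d : ℤ, ∃ m : ℤ, P.eval (d : ℝ) = m) ∧
    (B.card : ℝ) ≤ (N : ℝ) ^ (1 / 2 - μ) ∧ ∑ P ∈ B, Ysz N P ≤ (N : ℝ) ^ (1 / 2 + c)

/-- `n` is a value of a polynomial of `B` at an integer -/
def Val (B : Finset (Polynomial ℝ)) (n : ℕ) : Prop := ∃ P ∈ B, ∃ d : ℤ, (n : ℝ) = P.eval (d : ℝ)

open Classical in
/-- the integers `d` with `1 ≤ P(d) ≤ N` -/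
noncomputable def I (N D : ℕ) (P : Polynomial ℝ) : Finset ℤ :=
  (Icc (-(D : ℤ)) D).filter (fun d : ℤ => 1 ≤ P.eval (d : ℝ) ∧ P.eval (d : ℝ) ≤ N)

/-- the pairs -/
noncomputable def Q (N D : ℕ) (B : Finset (Polynomial ℝ)) : Finset ((_ : Polynomial ℝ) × ℤ) :=
  B.sigma (fun P => I N D P)

/-- the integer of a pair -/
noncomputable def nu (x : (_ : Polynomial ℝ) × ℤ) : ℕ := ⌊x.1.eval (x.2 : ℝ)⌋₊

open Classical in
/-- the integers -/
noncomputable def PP (N D : ℕ) (B : Finset (Polynomial ℝ)) : Finset ℕ := (Q N D B).image nu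

open Classical in
/-- the multiplicities -/
noncomputable def wt (N D : ℕ) (B : Finset (Polynomial ℝ)) (n : ℕ) : ℝ :=
  (((Q N D B).filter (fun x => nu x = n)).card : ℝ)

/-- integer-valued -/
def IV (B : Finset (Polynomial ℝ)) : Prop := ∀ P ∈ B, ∀ d : ℤ, ∃ m : ℤ, P.eval (d : ℝ) = m

theorem mem_Q {N D : ℕ} {B : Finset (Polynomial ℝ)} (hB : IV B) {x : (_ : Polynomial ℝ) × ℤ}
    (hx : x ∈ Q N D B) : x.1 ∈ B ∧ (nu x : ℝ) = x.1.eval (x.2 : ℝ) ∧ 1 ≤ nu x ∧ nu x ≤ N := by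
  unfold Q at hx
  rw [mem_sigma] at hx
  obtain ⟨h1, h2⟩ := hx
  unfold I at h2
  rw [mem_filter] at h2
  obtain ⟨_, h3, h4⟩ := h2
  obtain ⟨m, hm⟩ := hB x.1 h1 x.2
  have hm1 : 1 ≤ m := by
    rw [hm] at h3
    exact_mod_cast h3
  have h5 : ((nu x : ℕ) : ℝ) = x.1.eval (x.2 : ℝ) := by
    unfold nu
    rw [hm]
    obtain ⟨j, hj⟩ : ∃ j : ℕ, m = j := ⟨m.toNat, by omega⟩
    rw [hj]
    push_cast
    rw [Nat.floor_natCast]
  refine ⟨h1, h5, ?_, ?_⟩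
  · rw [← h5] at h3
    exact_mod_cast h3
  · rw [← h5] at h4
    exact_mod_cast h4

theorem PP_mem {N D : ℕ} {B : Finset (Polynomial ℝ)} (hB : IV B) {n : ℕ} (hn : n ∈ PP N D B) :
    1 ≤ n ∧ n ≤ N := by
  unfold PP at hn
  rw [mem_image] at hn
  obtain ⟨x, hx, rfl⟩ := hn
  exact (mem_Q hB hx).2.2

theorem wt_one {N D : ℕ} {B : Finset (Polynomial ℝ)} {n : ℕ} (hn : n ∈ PP N D B) : 1 ≤ wt N D B n := by
  classical
  unfold PP at hn
  rw [mem_image] at hn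
  obtain ⟨x, hx, hxn⟩ := hn
  unfold wt
  have : 0 < ((Q N D B).filter (fun x => nu x = n)).card := card_pos.2 ⟨x, mem_filter.2 ⟨hx, hxn⟩⟩
  exact_mod_cast this

theorem fibre (K : ℕ) (P : Polynomial ℝ) (hk1 : 1 ≤ P.natDegree) (hkK : P.natDegree ≤ K) (s : Finset ℤ) (y : ℝ) :
    (s.filter (fun d : ℤ => P.eval (d : ℝ) = y)).card ≤ K := by
  classical
  have hne : P - Polynomial.C y ≠ 0 := by
    intro h
    have h1 : P = Polynomial.C y := sub_eq_zero.1 h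
    rw [h1, Polynomial.natDegree_C] at hk1
    omega
  calc (s.filter (fun d : ℤ => P.eval (d : ℝ) = y)).card ≤ (P - Polynomial.C y).roots.toFinset.card := by
        apply card_le_card_of_injOn (fun d : ℤ => (d : ℝ))
        · intro d hd
          rw [mem_coe, mem_filter] at hd
          rw [mem_coe, Multiset.mem_toFinset, Polynomial.mem_roots hne, Polynomial.IsRoot.def,
            Polynomial.eval_sub, Polynomial.eval_C, hd.2, sub_self]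
        · intro d _ d' _ h
          exact Int.cast_injective h
    _ ≤ Multiset.card (P - Polynomial.C y).roots := Multiset.toFinset_card_le _
    _ ≤ (P - Polynomial.C y).natDegree := Polynomial.card_roots' _
    _ ≤ K := by rw [Polynomial.natDegree_sub_C]; exact hkK

theorem wt_le {N D K : ℕ} {B : Finset (Polynomial ℝ)} (hB : IV B)
    (hK : ∀ P ∈ B, 1 ≤ P.natDegree ∧ P.natDegree ≤ K) (n : ℕ) : wt N D B n ≤ K * B.card := by
  classical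
  unfold wt
  have h1 : (Q N D B).filter (fun x => nu x = n) ⊆
      B.sigma (fun P => (I N D P).filter (fun d : ℤ => P.eval (d : ℝ) = (n : ℝ))) := by
    intro x hx
    rw [mem_filter] at hx
    obtain ⟨h2, h3⟩ := hx
    obtain ⟨h4, h5, _⟩ := mem_Q hB h2
    unfold Q at h2
    rw [mem_sigma] at h2 ⊢
    refine ⟨h4, mem_filter.2 ⟨h2.2, ?_⟩⟩
    rw [← h5, h3]
  have h2 : ((Q N D B).filter (fun x => nu x = n)).card ≤ K * B.card := by
    refine (card_le_card h1).trans ?_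
    rw [card_sigma]
    calc ∑ P ∈ B, ((I N D P).filter (fun d : ℤ => P.eval (d : ℝ) = (n : ℝ))).card ≤ ∑ P ∈ B, K := by
          apply sum_le_sum
          intro P hP
          exact fibre K P (hK P hP).1 (hK P hP).2 _ _
      _ = K * B.card := by rw [sum_const, smul_eq_mul, Nat.mul_comm]
  exact_mod_cast h2

theorem sum_wt (N D : ℕ) (B : Finset (Polynomial ℝ)) : ∑ n ∈ PP N D B, wt N D B n = (Q N D B).card := by
  classical
  unfold PP wt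
  rw [card_eq_sum_card_image nu (Q N D B)]
  push_cast
  rfl

open Classical in
theorem kw_eq (N D : ℕ) (B : Finset (Polynomial ℝ)) (hB : IV B) (t : ℝ) :
    KW (PP N D B) (wt N D B) t = ∑ P ∈ B, ∑ d ∈ Icc (-(D : ℤ)) D,
      (if 1 ≤ P.eval (d : ℝ) ∧ P.eval (d : ℝ) ≤ N then pw t (P.eval (d : ℝ)) else 0) := by
  unfold KW
  have h1 : ∑ P ∈ B, ∑ d ∈ Icc (-(D : ℤ)) D,
      (if 1 ≤ P.eval (d : ℝ) ∧ P.eval (d : ℝ) ≤ N then pw t (P.eval (d : ℝ)) else 0) =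
      ∑ x ∈ Q N D B, ph t (nu x) := by
    have h2 : ∀ x ∈ Q N D B, ph t (nu x) = pw t (x.1.eval (x.2 : ℝ)) := by
      intro x hx
      obtain ⟨_, h5, _⟩ := mem_Q hB hx
      rw [ph_eq, h5]
      rfl
    rw [sum_congr rfl h2]
    unfold Q
    rw [sum_sigma]
    apply sum_congr rfl
    intro P _
    unfold I
    rw [sum_filter]
  rw [h1, sum_comp (fun n => ph t n) nu]
  unfold PP wt
  apply sum_congr rfl
  intro n _
  rw [nsmul_eq_mul]
  push_cast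
  rfl

theorem card_Q {N D K : ℕ} {B : Finset (Polynomial ℝ)} (hN : 1 ≤ N)
    (hK : ∀ P ∈ B, 1 ≤ P.natDegree ∧ P.natDegree ≤ K) :
    ((Q N D B).card : ℝ) ≤ 2 * K * ∑ P ∈ B, Ysz N P + K * B.card := by
  unfold Q
  rw [card_sigma]
  push_cast
  calc ∑ P ∈ B, ((I N D P).card : ℝ) ≤ ∑ P ∈ B, (2 * K * Ysz N P + K) := by
        apply sum_le_sum
        intro P hP
        obtain ⟨h1, h2⟩ := hK P hP
        have h3 := count N hN P h1 (-(D : ℤ)) D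
        have h4 : (P.natDegree : ℝ) ≤ K := by exact_mod_cast h2
        have h5 := Ysz_pos N P hN h1
        unfold I
        calc _ ≤ (P.natDegree : ℝ) * (2 * Ysz N P + 1) := by convert! h3
          _ ≤ K * (2 * Ysz N P + 1) := by gcongr
          _ = _ := by ring
    _ = _ := by rw [sum_add_distrib, ← mul_sum, sum_const, nsmul_eq_mul]; ring

theorem supp (N D : ℕ) (B : Finset (Polynomial ℝ)) (hB : IV B)
    (hD : ∀ P ∈ B, ∀ d : ℤ, 1 ≤ P.eval (d : ℝ) → P.eval (d : ℝ) ≤ N → |d| ≤ D) (f : ℕ → ℂ)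
    (hf : ∀ n ∈ Icc 1 N, f n ≠ 0 → Val B n) : ∑ n ∈ Icc 1 N, f n = ∑ n ∈ PP N D B, f n := by
  classical
  symm
  apply sum_subset
  · intro n hn
    rw [mem_Icc]
    exact PP_mem hB hn
  · intro n hn hnP
    by_contra hne
    obtain ⟨P, hP, d, hd⟩ := hf n hn hne
    apply hnP
    rw [mem_Icc] at hn
    have h1 : 1 ≤ P.eval (d : ℝ) := by rw [← hd]; exact_mod_cast hn.1
    have h2 : P.eval (d : ℝ) ≤ N := by rw [← hd]; exact_mod_cast hn.2
    unfold PP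
    rw [mem_image]
    refine ⟨⟨P, d⟩, ?_, ?_⟩
    · unfold Q I
      rw [mem_sigma, mem_filter, mem_Icc]
      have := abs_le.1 (hD P hP d h1 h2)
      exact ⟨hP, ⟨this.1, this.2⟩, h1, h2⟩
    · unfold nu
      simp only
      rw [← hd, Nat.floor_natCast]

/-- **The mean value.** -/
theorem main (A μ : ℝ) (K : ℕ) (hμ : 0 < μ) (hK : 1 ≤ K) :
    ∃ c C : ℝ, 0 < c ∧ c ≤ 1 / 4 ∧ 1 ≤ C ∧ ∀ (N : ℕ) (B : Finset (Polynomial ℝ)), 1 ≤ N → Adm N μ c K B →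
      ∀ (T x : ℝ) (W : Finset ℝ) (b : ℕ → ℂ), T ≤ (N : ℝ) ^ A → Sep W →
      (∀ t ∈ W, x ≤ t ∧ t ≤ x + T) → (∀ n ∈ Icc 1 N, b n ≠ 0 → Val B n) →
      (∑ t ∈ W, ‖∑ n ∈ Icc 1 N, b n * ph t n‖ ^ 2 ≤
        C * ((N : ℝ) ^ (3 / 2 - c) + W.card * (N : ℝ) ^ (1 / 2 - c)) * ∑ n ∈ Icc 1 N, ‖b n‖ ^ 2) ∧
      ((∀ n, ‖b n‖ ≤ 1) → ∑ t ∈ W, ‖∑ n ∈ Icc 1 N, b n * ph t n‖ ^ 2 ≤
        C * ((N : ℝ) + W.card) * N) := by
  classical
  obtain ⟨δ, C0, hδ, hC0, hker⟩ := kerF A (μ / 2) K (by positivity) hK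
  have hK' : (1 : ℝ) ≤ K := by exact_mod_cast hK
  have hK0 : (0 : ℝ) < K := by linarith
  obtain ⟨C2, hC2, hlg⟩ := lg_pow 2 (μ / 4) (by norm_num) (by positivity)
  set c : ℝ := min (min (δ / 2) (μ / 8)) (1 / 4) with hc
  have hc0 : 0 < c := by rw [hc]; positivity
  have hc1 : c ≤ δ / 2 := (min_le_left _ _).trans (min_le_left _ _)
  have hc2 : c ≤ μ / 8 := (min_le_left _ _).trans (min_le_right _ _)
  have hc3 : c ≤ 1 / 4 := min_le_right _ _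
  set C : ℝ := 3 * K * (20 * K * C2 + (C0 + 3 * K)) with hC
  have hC20 : 0 < C2 := by linarith
  have hCin : 1 ≤ 20 * K * C2 + (C0 + 3 * K) := by
    have : 0 ≤ 20 * K * C2 := by positivity
    linarith
  have h3K : 1 ≤ 3 * (K : ℝ) := by linarith
  have hC1 : 1 ≤ C := one_le_mul_of_one_le_of_one_le h3K hCin
  refine ⟨c, C, hc0, hc3, hC1, ?_⟩
  intro N B hN hAdm T x W b hT hW hWT hs
  obtain ⟨hB, hcard, hSm⟩ := hAdm
  have hN1 : (1 : ℝ) ≤ N := by exact_mod_cast hN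
  have hN0 : (0 : ℝ) < N := by linarith
  have hIV : IV B := fun P hP => (hB P hP).2.2
  have hBK : ∀ P ∈ B, 1 ≤ P.natDegree ∧ P.natDegree ≤ K := fun P hP => ⟨(hB P hP).1, (hB P hP).2.1⟩
  -- a common bound for the arguments
  have hDex : ∃ D : ℕ, ∀ P ∈ B, ∀ d : ℤ, 1 ≤ P.eval (d : ℝ) → P.eval (d : ℝ) ≤ N → |d| ≤ D := by
    have h1 : ∀ P : Polynomial ℝ, ∃ D : ℕ, 1 ≤ P.natDegree → ∀ d : ℤ, 1 ≤ P.eval (d : ℝ) →
        P.eval (d : ℝ) ≤ N → |d| ≤ D := by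
      intro P
      by_cases hP : 1 ≤ P.natDegree
      · obtain ⟨D, hD⟩ := bdd N hN P hP
        exact ⟨D, fun _ => hD⟩
      · exact ⟨0, fun h => absurd h hP⟩
    choose Df hDf using h1
    refine ⟨∑ P ∈ B, Df P, ?_⟩
    intro P hP d e1 e2
    have h2 := hDf P (hBK P hP).1 d e1 e2
    have h3 : Df P ≤ ∑ P ∈ B, Df P := single_le_sum (fun _ _ => Nat.zero_le _) hP
    have h4 : ((Df P : ℕ) : ℤ) ≤ ((∑ P ∈ B, Df P : ℕ) : ℤ) := by exact_mod_cast h3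
    exact h2.trans h4
  obtain ⟨D, hD⟩ := hDex
  have hYsum0 : 0 ≤ ∑ P ∈ B, Ysz N P := sum_nonneg fun P hP => (Ysz_pos N P hN (hBK P hP).1).le
  have hYle : ∀ P ∈ B, Ysz N P ≤ N := by
    intro P hP
    calc Ysz N P ≤ ∑ P ∈ B, Ysz N P :=
          single_le_sum (fun P hP => (Ysz_pos N P hN (hBK P hP).1).le) hP
      _ ≤ (N : ℝ) ^ (1 / 2 + c) := hSm
      _ ≤ (N : ℝ) ^ (1 : ℝ) := Real.rpow_le_rpow_of_exponent_le hN1 (by linarith)
      _ = N := Real.rpow_one _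
  -- the number of the pairs
  have hcard2 : (B.card : ℝ) ≤ (N : ℝ) ^ (1 / 2 + c) :=
    hcard.trans (Real.rpow_le_rpow_of_exponent_le hN1 (by linarith))
  have hQ : ((Q N D B).card : ℝ) ≤ 3 * K * (N : ℝ) ^ (1 / 2 + c) := by
    calc ((Q N D B).card : ℝ) ≤ 2 * K * ∑ P ∈ B, Ysz N P + K * B.card := card_Q hN hBK
      _ ≤ 2 * K * (N : ℝ) ^ (1 / 2 + c) + K * (N : ℝ) ^ (1 / 2 + c) := by gcongr
      _ = _ := by ring
  have hw2 : ∑ n ∈ PP N D B, wt N D B n ^ 2 ≤ 3 * K ^ 2 * (N : ℝ) ^ (1 + c - μ) := by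
    calc ∑ n ∈ PP N D B, wt N D B n ^ 2 ≤ ∑ n ∈ PP N D B, (K * B.card) * wt N D B n := by
          apply sum_le_sum
          intro n hn
          rw [pow_two]
          exact mul_le_mul_of_nonneg_right (wt_le hIV hBK n) (by linarith [wt_one hn])
      _ = (K * B.card) * (Q N D B).card := by rw [← mul_sum, sum_wt]
      _ ≤ (K * (N : ℝ) ^ (1 / 2 - μ)) * (3 * K * (N : ℝ) ^ (1 / 2 + c)) := by gcongr
      _ = 3 * K ^ 2 * ((N : ℝ) ^ (1 / 2 - μ) * (N : ℝ) ^ (1 / 2 + c)) := by ring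
      _ = _ := by
          rw [← Real.rpow_add hN0]
          congr 2; ring
  have hsq : Real.sqrt (∑ n ∈ PP N D B, wt N D B n ^ 2) ≤ 2 * K * (N : ℝ) ^ (1 / 2 + c / 2 - μ / 2) := by
    rw [Real.sqrt_le_left (by positivity)]
    refine hw2.trans ?_
    rw [mul_pow, ← Real.rpow_natCast ((N : ℝ) ^ (1 / 2 + c / 2 - μ / 2)) 2, ← Real.rpow_mul hN0.le]
    have e1 : (1 / 2 + c / 2 - μ / 2) * ((2 : ℕ) : ℝ) = 1 + c - μ := by
      push_cast; ring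
    rw [e1]
    have : 0 ≤ (N : ℝ) ^ (1 + c - μ) := by positivity
    nlinarith [mul_nonneg (sq_nonneg (K : ℝ)) this]
  -- the kernel
  have hKW : ∀ t : ℝ, (N : ℝ) < |t| → |t| ≤ T → ‖KW (PP N D B) (wt N D B) t‖ ≤
      (C0 + 3 * K) * (N : ℝ) ^ (1 / 2 - c) := by
    intro t h1 h2
    rw [kw_eq N D B hIV]
    have hterm : ∀ P ∈ B, ‖∑ d ∈ Icc (-(D : ℤ)) D,
        (if 1 ≤ P.eval (d : ℝ) ∧ P.eval (d : ℝ) ≤ N then pw t (P.eval (d : ℝ)) else 0)‖ ≤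
        C0 * (N : ℝ) ^ (-δ) * Ysz N P + 3 * K * (N : ℝ) ^ (μ / 2) := by
      intro P hP
      obtain ⟨k1, k2⟩ := hBK P hP
      have hYp := Ysz_pos N P hN k1
      rcases le_or_gt ((N : ℝ) ^ (μ / 2)) (Ysz N P) with h3 | h3
      · have h4 := hker N hN P k1 k2 h3 (hYle P hP) t h1.le (h2.trans hT) (-(D : ℤ)) D
        have h5 : 0 ≤ 3 * K * (N : ℝ) ^ (μ / 2) := by positivity
        calc _ ≤ C0 * Ysz N P * (N : ℝ) ^ (-δ) := h4
          _ = C0 * (N : ℝ) ^ (-δ) * Ysz N P := by ring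
          _ ≤ _ := by linarith
      · have h4 := count N hN P k1 (-(D : ℤ)) D
        have h5 : (1 : ℝ) ≤ (N : ℝ) ^ (μ / 2) := Real.one_le_rpow hN1 (by positivity)
        have h6 : (P.natDegree : ℝ) ≤ K := by exact_mod_cast k2
        have h7 : 0 ≤ C0 * (N : ℝ) ^ (-δ) * Ysz N P := by positivity
        calc ‖∑ d ∈ Icc (-(D : ℤ)) D,
              (if 1 ≤ P.eval (d : ℝ) ∧ P.eval (d : ℝ) ≤ N then pw t (P.eval (d : ℝ)) else 0)‖
            = ‖∑ d ∈ (Icc (-(D : ℤ)) D).filter (fun d : ℤ => 1 ≤ P.eval (d : ℝ) ∧ P.eval (d : ℝ) ≤ N),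
              pw t (P.eval (d : ℝ))‖ := by rw [sum_filter]
          _ ≤ ∑ d ∈ (Icc (-(D : ℤ)) D).filter (fun d : ℤ => 1 ≤ P.eval (d : ℝ) ∧ P.eval (d : ℝ) ≤ N),
              ‖pw t (P.eval (d : ℝ))‖ := norm_sum_le _ _
          _ = (((Icc (-(D : ℤ)) D).filter (fun d : ℤ => 1 ≤ P.eval (d : ℝ) ∧ P.eval (d : ℝ) ≤ N)).card : ℝ) := by
              simp only [pw_norm, sum_const, nsmul_eq_mul, mul_one]
          _ ≤ P.natDegree * (2 * Ysz N P + 1) := h4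
          _ ≤ K * (2 * (N : ℝ) ^ (μ / 2) + (N : ℝ) ^ (μ / 2)) := by gcongr
          _ = 3 * K * (N : ℝ) ^ (μ / 2) := by ring
          _ ≤ _ := by linarith
    calc ‖∑ P ∈ B, ∑ d ∈ Icc (-(D : ℤ)) D,
        (if 1 ≤ P.eval (d : ℝ) ∧ P.eval (d : ℝ) ≤ N then pw t (P.eval (d : ℝ)) else 0)‖
        ≤ ∑ P ∈ B, ‖∑ d ∈ Icc (-(D : ℤ)) D,
        (if 1 ≤ P.eval (d : ℝ) ∧ P.eval (d : ℝ) ≤ N then pw t (P.eval (d : ℝ)) else 0)‖ := norm_sum_le _ _
      _ ≤ ∑ P ∈ B, (C0 * (N : ℝ) ^ (-δ) * Ysz N P + 3 * K * (N : ℝ) ^ (μ / 2)) := sum_le_sum hterm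
      _ = C0 * (N : ℝ) ^ (-δ) * ∑ P ∈ B, Ysz N P + B.card * (3 * K * (N : ℝ) ^ (μ / 2)) := by
          rw [sum_add_distrib, ← mul_sum, sum_const, nsmul_eq_mul]
      _ ≤ C0 * (N : ℝ) ^ (-δ) * (N : ℝ) ^ (1 / 2 + c) + (N : ℝ) ^ (1 / 2 - μ) * (3 * K * (N : ℝ) ^ (μ / 2)) := by
          gcongr
      _ = C0 * ((N : ℝ) ^ (-δ) * (N : ℝ) ^ (1 / 2 + c)) + 3 * K * ((N : ℝ) ^ (1 / 2 - μ) * (N : ℝ) ^ (μ / 2)) := by
          ring
      _ ≤ C0 * (N : ℝ) ^ (1 / 2 - c) + 3 * K * (N : ℝ) ^ (1 / 2 - c) := by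
          rw [← Real.rpow_add hN0, ← Real.rpow_add hN0]
          have g1 : (N : ℝ) ^ (-δ + (1 / 2 + c)) ≤ (N : ℝ) ^ (1 / 2 - c) :=
            Real.rpow_le_rpow_of_exponent_le hN1 (by linarith)
          have g2 : (N : ℝ) ^ (1 / 2 - μ + μ / 2) ≤ (N : ℝ) ^ (1 / 2 - c) :=
            Real.rpow_le_rpow_of_exponent_le hN1 (by linarith)
          gcongr
      _ = _ := by ring
  have hls := lsW N hN (PP N D B) (wt N D B) (fun n hn => wt_one hn)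
    (fun n hn => ⟨(PP_mem hIV hn).1, by have := (PP_mem hIV hn).2; omega⟩) W hW x T N
    ((C0 + 3 * K) * (N : ℝ) ^ (1 / 2 - c)) hWT le_rfl (by positivity) hKW b
  have hsum1 : ∀ t, ∑ n ∈ Icc 1 N, b n * ph t n = ∑ n ∈ PP N D B, b n * ph t n := by
    intro t
    apply supp N D B hIV hD
    intro n hn hne
    exact hs n hn (left_ne_zero_of_mul hne)
  have hlg2 : (1 + Real.log (2 * N)) ^ 2 ≤ C2 * (N : ℝ) ^ (μ / 4) := by
    have := hlg N hN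
    rwa [Real.rpow_two] at this
  have hlog0 : 0 ≤ Real.log (2 * (N : ℝ)) := Real.log_nonneg (by linarith)
  have hfirst : 10 * (N : ℝ) * (1 + Real.log (2 * N)) ^ 2 * Real.sqrt (∑ n ∈ PP N D B, wt N D B n ^ 2) ≤
      20 * K * C2 * (N : ℝ) ^ (3 / 2 - c) := by
    calc 10 * (N : ℝ) * (1 + Real.log (2 * N)) ^ 2 * Real.sqrt (∑ n ∈ PP N D B, wt N D B n ^ 2)
        ≤ 10 * (N : ℝ) * (C2 * (N : ℝ) ^ (μ / 4)) * (2 * K * (N : ℝ) ^ (1 / 2 + c / 2 - μ / 2)) := by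
          gcongr
      _ = 20 * K * C2 * ((N : ℝ) ^ (1 : ℝ) * (N : ℝ) ^ (μ / 4) * (N : ℝ) ^ (1 / 2 + c / 2 - μ / 2)) := by
          rw [Real.rpow_one]; ring
      _ = 20 * K * C2 * (N : ℝ) ^ (1 + μ / 4 + (1 / 2 + c / 2 - μ / 2)) := by
          rw [← Real.rpow_add hN0, ← Real.rpow_add hN0]
      _ ≤ 20 * K * C2 * (N : ℝ) ^ (3 / 2 - c) := by
          have h1 : 1 + μ / 4 + (1 / 2 + c / 2 - μ / 2) ≤ 3 / 2 - c := by linarith
          have := Real.rpow_le_rpow_of_exponent_le hN1 h1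
          gcongr
  have hnorm2 : ∑ n ∈ PP N D B, ‖b n‖ ^ 2 ≤ ∑ n ∈ Icc 1 N, ‖b n‖ ^ 2 := by
    apply sum_le_sum_of_subset_of_nonneg
    · intro n hn
      rw [mem_Icc]
      exact PP_mem hIV hn
    · intro _ _ _
      positivity
  have hbase : ∑ t ∈ W, ‖∑ n ∈ Icc 1 N, b n * ph t n‖ ^ 2 ≤
      (20 * K * C2 + (C0 + 3 * K)) * ((N : ℝ) ^ (3 / 2 - c) + W.card * (N : ℝ) ^ (1 / 2 - c)) *
        ∑ n ∈ PP N D B, ‖b n‖ ^ 2 := by
    simp only [hsum1]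
    refine hls.trans ?_
    apply mul_le_mul_of_nonneg_right _ (sum_nonneg fun _ _ => by positivity)
    have h1 : 0 ≤ (N : ℝ) ^ (3 / 2 - c) := by positivity
    have h2 : 0 ≤ W.card * (N : ℝ) ^ (1 / 2 - c) := by positivity
    have h3 : 0 ≤ 20 * K * C2 := by positivity
    have h4 : 0 ≤ C0 + 3 * K := by positivity
    nlinarith [mul_nonneg h3 h2, mul_nonneg h4 h1]
  constructor
  · refine hbase.trans ?_
    have h1 : 0 ≤ (N : ℝ) ^ (3 / 2 - c) + W.card * (N : ℝ) ^ (1 / 2 - c) := by positivity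
    have h2 : (20 * K * C2 + (C0 + 3 * K)) ≤ C := by
      rw [hC]
      exact le_mul_of_one_le_left (by linarith) h3K
    have h3 : 0 ≤ ∑ n ∈ PP N D B, ‖b n‖ ^ 2 := sum_nonneg fun _ _ => by positivity
    gcongr
  · intro hb
    have hP : ((PP N D B).card : ℝ) ≤ 3 * K * (N : ℝ) ^ (1 / 2 + c) := by
      refine le_trans ?_ hQ
      exact_mod_cast card_image_le
    have h1 : ∑ n ∈ PP N D B, ‖b n‖ ^ 2 ≤ 3 * K * (N : ℝ) ^ (1 / 2 + c) := by
      calc ∑ n ∈ PP N D B, ‖b n‖ ^ 2 ≤ ∑ n ∈ PP N D B, (1 : ℝ) := by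
            apply sum_le_sum
            intro n _
            exact pow_le_one₀ (norm_nonneg _) (hb n)
        _ = (PP N D B).card := by simp
        _ ≤ _ := hP
    have h0 : 0 ≤ 20 * K * C2 + (C0 + 3 * K) := by linarith
    calc _ ≤ _ := hbase
      _ ≤ (20 * K * C2 + (C0 + 3 * K)) * ((N : ℝ) ^ (3 / 2 - c) + W.card * (N : ℝ) ^ (1 / 2 - c)) *
          (3 * K * (N : ℝ) ^ (1 / 2 + c)) := by gcongr
      _ = C * ((N : ℝ) ^ (3 / 2 - c) * (N : ℝ) ^ (1 / 2 + c) +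
          W.card * ((N : ℝ) ^ (1 / 2 - c) * (N : ℝ) ^ (1 / 2 + c))) := by rw [hC]; ring
      _ = C * ((N : ℝ) + W.card) * N := by
          rw [← Real.rpow_add hN0, ← Real.rpow_add hN0]
          rw [show (3 / 2 - c + (1 / 2 + c) : ℝ) = 2 by ring, show (1 / 2 - c + (1 / 2 + c) : ℝ) = 1 by ring,
            Real.rpow_one, Real.rpow_two]
          ring

/-- **The mean value**, with up to `N^(1/2)` further integers in the support. -/
theorem mainE (A μ : ℝ) (K : ℕ) (hμ : 0 < μ) (hK : 1 ≤ K) :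
    ∃ c C : ℝ, 0 < c ∧ 1 ≤ C ∧ ∀ (N : ℕ) (B : Finset (Polynomial ℝ)) (E : Finset ℕ), 1 ≤ N → Adm N μ c K B →
      (E.card : ℝ) ≤ (N : ℝ) ^ (1 / 2 : ℝ) → ∀ (T x : ℝ) (W : Finset ℝ) (a : ℕ → ℂ),
      T ≤ (N : ℝ) ^ A → Sep W → (∀ t ∈ W, x ≤ t ∧ t ≤ x + T) →
      (∀ n ∈ Icc 1 N, a n ≠ 0 → n ∈ E ∨ Val B n) →
      ((∀ n ∈ Icc 1 N, ‖a n‖ ≤ 1) →
        ∑ t ∈ W, ‖∑ n ∈ Icc 1 N, a n * ph t n‖ ^ 2 ≤ C * ((N : ℝ) + W.card) * N) ∧
      (E = ∅ → ∑ t ∈ W, ‖∑ n ∈ Icc 1 N, a n * ph t n‖ ^ 2 ≤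
        C * ((N : ℝ) ^ (3 / 2 - c) + W.card * (N : ℝ) ^ (1 / 2 - c)) * ∑ n ∈ Icc 1 N, ‖a n‖ ^ 2) := by
  classical
  obtain ⟨c, C, hc0, hc1, hC, h⟩ := main A μ K hμ hK
  refine ⟨c, 2 * C + 2, hc0, by linarith, ?_⟩
  intro N B E hN hB hE T x W a hT hW hWT hs
  have hN1 : (1 : ℝ) ≤ N := by exact_mod_cast hN
  constructor
  · intro ha
    set b1 : ℕ → ℂ := fun n => if n ∈ Icc 1 N ∧ n ∉ E then a n else 0 with hb1
    set b2 : ℕ → ℂ := fun n => if n ∈ Icc 1 N ∧ n ∈ E then a n else 0 with hb2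
    have hb12 : ∀ n ∈ Icc 1 N, a n = b1 n + b2 n := by
      intro n hn
      simp only [hb1, hb2]
      by_cases hnE : n ∈ E
      · rw [if_neg (fun h => h.2 hnE), if_pos ⟨hn, hnE⟩, zero_add]
      · rw [if_pos ⟨hn, hnE⟩, if_neg (fun h => hnE h.2), add_zero]
    have hbn1 : ∀ n, ‖b1 n‖ ≤ 1 := by
      intro n
      simp only [hb1]
      split_ifs with h1
      · exact ha n h1.1
      · simp
    have h1 := (h N B hN hB T x W b1 hT hW hWT (by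
      intro n hn hne
      simp only [hb1] at hne
      split_ifs at hne with hnE
      · rcases hs n hn hne with h1 | h1
        · exact absurd h1 hnE.2
        · exact h1
      · exact absurd rfl hne)).2 hbn1
    have hE2 : (E.card : ℝ) ^ 2 ≤ N := by
      have h2 : (E.card : ℝ) ^ 2 ≤ ((N : ℝ) ^ (1 / 2 : ℝ)) ^ 2 := pow_le_pow_left₀ (Nat.cast_nonneg _) hE 2
      have h3 : ((N : ℝ) ^ (1 / 2 : ℝ)) ^ 2 = N := by
        rw [← Real.rpow_natCast, ← Real.rpow_mul (Nat.cast_nonneg _)]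
        norm_num
      linarith
    have h2 : ∀ t : ℝ, ‖∑ n ∈ Icc 1 N, b2 n * ph t n‖ ^ 2 ≤ N := by
      intro t
      have h3 : ‖∑ n ∈ Icc 1 N, b2 n * ph t n‖ ≤ E.card := by
        calc ‖∑ n ∈ Icc 1 N, b2 n * ph t n‖ ≤ ∑ n ∈ Icc 1 N, ‖b2 n * ph t n‖ := norm_sum_le _ _
          _ ≤ ∑ n ∈ Icc 1 N, (if n ∈ E then (1 : ℝ) else 0) := by
              apply sum_le_sum
              intro n hn
              rw [norm_mul, ph_norm, mul_one]
              simp only [hb2]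
              by_cases hnE : n ∈ E
              · rw [if_pos ⟨hn, hnE⟩, if_pos hnE]
                exact ha n hn
              · rw [if_neg (fun h => hnE h.2), if_neg hnE, norm_zero]
          _ = (((Icc 1 N).filter (fun n => n ∈ E)).card : ℝ) := by
              rw [← sum_filter]; simp
          _ ≤ E.card := by
              have : (Icc 1 N).filter (fun n => n ∈ E) ⊆ E := fun n hn => (mem_filter.1 hn).2
              exact_mod_cast card_le_card this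
      exact (pow_le_pow_left₀ (norm_nonneg _) h3 2).trans hE2
    have h3 : ∀ t : ℝ, ‖∑ n ∈ Icc 1 N, a n * ph t n‖ ^ 2 ≤
        2 * ‖∑ n ∈ Icc 1 N, b1 n * ph t n‖ ^ 2 + 2 * N := by
      intro t
      have e : ∑ n ∈ Icc 1 N, a n * ph t n =
          ∑ n ∈ Icc 1 N, b1 n * ph t n + ∑ n ∈ Icc 1 N, b2 n * ph t n := by
        rw [← sum_add_distrib]
        apply sum_congr rfl
        intro n hn
        rw [hb12 n hn]; ring
      rw [e]
      have h4 := norm_add_le (∑ n ∈ Icc 1 N, b1 n * ph t n) (∑ n ∈ Icc 1 N, b2 n * ph t n)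
      have h5 := h2 t
      set u := ‖∑ n ∈ Icc 1 N, b1 n * ph t n‖ with hu
      set v := ‖∑ n ∈ Icc 1 N, b2 n * ph t n‖ with hv
      have hu0 : 0 ≤ u := norm_nonneg _
      have hv0 : 0 ≤ v := norm_nonneg _
      have h6 : ‖∑ n ∈ Icc 1 N, b1 n * ph t n + ∑ n ∈ Icc 1 N, b2 n * ph t n‖ ^ 2 ≤ (u + v) ^ 2 :=
        pow_le_pow_left₀ (norm_nonneg _) h4 2
      nlinarith [sq_nonneg (u - v)]
    have h4 : ∑ t ∈ W, ‖∑ n ∈ Icc 1 N, a n * ph t n‖ ^ 2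
        ≤ ∑ t ∈ W, (2 * ‖∑ n ∈ Icc 1 N, b1 n * ph t n‖ ^ 2 + 2 * N) :=
          sum_le_sum fun t _ => h3 t
    rw [sum_add_distrib, ← mul_sum, sum_const, nsmul_eq_mul] at h4
    refine h4.trans ?_
    have h6 : 0 ≤ (N : ℝ) * N := by positivity
    have h7 : (2 * C + 2) * ((N : ℝ) + W.card) * N =
        2 * (C * ((N : ℝ) + W.card) * N) + W.card * (2 * N) + 2 * (N * N) := by ring
    rw [h7]
    linarith
  · intro hEe
    have h3 := (h N B hN hB T x W a hT hW hWT (by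
      intro n hn hne
      rcases hs n hn hne with h6 | h6
      · rw [hEe] at h6
        exact absurd h6 (notMem_empty n)
      · exact h6)).1
    refine h3.trans ?_
    have h4 : 0 ≤ (N : ℝ) ^ (3 / 2 - c) + W.card * (N : ℝ) ^ (1 / 2 - c) := by positivity
    have h5 : 0 ≤ ∑ n ∈ Icc 1 N, ‖a n‖ ^ 2 := sum_nonneg fun _ _ => by positivity
    gcongr
    linarith

end Pool.Agent.H472.PV
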