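import Mathlib

/-!
Logarithmic derivatives of a polynomial with roots `ρ i`: size, power sums, zeros.
-/

set_option autoImplicit false

namespace Pool.Agent.H472.PV

open Finset

/-- power sums of complex numbers, one of them on the unit circle -/
theorem psum_lower (k : ℕ) (z : Fin k → ℂ) (i0 : Fin k) (h0 : ‖z i0‖ = 1) :
    ∃ m : ℕ, 1 ≤ m ∧ m ≤ k ∧ 1 / (2 * k : ℝ) ≤ ‖∑ i, z i ^ m‖ := by
  by_contra hcon
  push Not at hcon
  have hk : 1 ≤ k := by have := i0.2; omega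
  have hk' : (1 : ℝ) ≤ k := by exact_mod_cast hk
  set ε : ℝ := 1 / (2 * k) with hε
  have hε0 : 0 < ε := by rw [hε]; positivity
  have hε1 : ε ≤ 1 := by rw [hε, div_le_one (by positivity)]; linarith
  set es : ℕ → ℂ := fun m => (univ.val.map z).esymm m with hes
  have hes0 : es 0 = 1 := by simp [hes, Multiset.esymm]
  have newton : ∀ m : ℕ, (m : ℂ) * es m = (-1) ^ (m + 1) *
      ∑ a ∈ (antidiagonal m).filter (fun a => a.1 < m), (-1) ^ a.1 * es a.1 * ∑ i, z i ^ a.2 := by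
    intro m
    have h := congrArg (MvPolynomial.aeval z) (MvPolynomial.mul_esymm_eq_sum (Fin k) ℂ m)
    simp only [map_mul, map_natCast, map_pow, map_neg, map_one, map_sum,
      MvPolynomial.aeval_esymm_eq_multiset_esymm, MvPolynomial.psum, MvPolynomial.aeval_X] at h
    exact h
  have hbound : ∀ m : ℕ, 1 ≤ m → m ≤ k → ‖es m‖ ≤ ε := by
    intro m
    induction m using Nat.strong_induction_on with
    | _ m ih =>
      intro hm1 hmk
      have hle1 : ∀ j < m, ‖es j‖ ≤ 1 := by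
        intro j hj
        rcases Nat.eq_zero_or_pos j with rfl | hj0
        · rw [hes0]; simp
        · exact (ih j hj hj0 (by omega)).trans hε1
      have h1 : (m : ℝ) * ‖es m‖ ≤ m * ε := by
        calc (m : ℝ) * ‖es m‖ = ‖(m : ℂ) * es m‖ := by rw [norm_mul, Complex.norm_natCast]
          _ = ‖∑ a ∈ (antidiagonal m).filter (fun a => a.1 < m), (-1) ^ a.1 * es a.1 * ∑ i, z i ^ a.2‖ := by
              rw [newton, norm_mul, norm_pow, norm_neg, norm_one, one_pow, one_mul]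
          _ ≤ ∑ a ∈ (antidiagonal m).filter (fun a => a.1 < m), ‖(-1) ^ a.1 * es a.1 * ∑ i, z i ^ a.2‖ :=
              norm_sum_le _ _
          _ ≤ ∑ a ∈ (antidiagonal m).filter (fun a => a.1 < m), ε := by
              apply sum_le_sum
              intro a ha
              rw [mem_filter, HasAntidiagonal.mem_antidiagonal] at ha
              rw [norm_mul, norm_mul, norm_pow, norm_neg, norm_one, one_pow, one_mul]
              have h2 := hle1 a.1 ha.2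
              have h3 := (hcon a.2 (by omega) (by omega)).le
              calc ‖es a.1‖ * ‖∑ i, z i ^ a.2‖ ≤ 1 * ε := by gcongr
                _ = ε := one_mul _
          _ = (((antidiagonal m).filter (fun a => a.1 < m)).card : ℝ) * ε := by rw [sum_const, nsmul_eq_mul]
          _ ≤ m * ε := by
              have h4 : ((antidiagonal m).filter (fun a => a.1 < m)).card ≤ (range m).card := by
                apply card_le_card_of_injOn (fun a => a.1)
                · intro a ha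
                  rw [mem_coe, mem_filter] at ha
                  rw [mem_coe, mem_range]
                  exact ha.2
                · intro a ha b hb hab
                  rw [mem_coe, mem_filter, HasAntidiagonal.mem_antidiagonal] at ha hb
                  simp only at hab
                  ext
                  · exact hab
                  · omega
              rw [card_range] at h4
              have h5 : (((antidiagonal m).filter (fun a => a.1 < m)).card : ℝ) ≤ m := by exact_mod_cast h4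
              gcongr
      have hm0 : (0 : ℝ) < m := by exact_mod_cast hm1
      exact le_of_mul_le_mul_left h1 hm0
  -- Vieta at `z i0`
  have hv := congrArg (Polynomial.eval (z i0)) (Multiset.prod_X_sub_X_eq_sum_esymm (univ.val.map z))
  have hcard : Multiset.card (univ.val.map z) = k := by simp
  rw [Polynomial.eval_finsetSum, hcard] at hv
  have hL : Polynomial.eval (z i0) (Multiset.map (fun t => Polynomial.X - Polynomial.C t) (univ.val.map z)).prod = 0 := by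
    rw [Polynomial.eval_multiset_prod]
    apply Multiset.prod_eq_zero
    rw [Multiset.mem_map]
    refine ⟨Polynomial.X - Polynomial.C (z i0), ?_, by simp⟩
    rw [Multiset.mem_map]
    exact ⟨z i0, Multiset.mem_map_of_mem z (mem_univ_val i0), rfl⟩
  rw [hL, sum_range_succ'] at hv
  simp only [Polynomial.eval_mul, Polynomial.eval_pow, Polynomial.eval_neg, Polynomial.eval_one,
    Polynomial.eval_C, Polynomial.eval_X, pow_zero, one_mul, Nat.sub_zero] at hv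
  have h1 : (univ.val.map z).esymm 0 = 1 := hes0
  rw [h1, one_mul] at hv
  have h2 : z i0 ^ k = -∑ j ∈ range k, (-1) ^ (j + 1) * (es (j + 1) * z i0 ^ (k - (j + 1))) := by
    rw [eq_neg_iff_add_eq_zero, add_comm]
    exact hv.symm
  have h3 : (1 : ℝ) ≤ k * ε := by
    calc (1 : ℝ) = ‖z i0 ^ k‖ := by rw [norm_pow, h0, one_pow]
      _ = ‖∑ j ∈ range k, (-1) ^ (j + 1) * (es (j + 1) * z i0 ^ (k - (j + 1)))‖ := by rw [h2, norm_neg]
      _ ≤ ∑ j ∈ range k, ‖(-1) ^ (j + 1) * (es (j + 1) * z i0 ^ (k - (j + 1)))‖ := norm_sum_le _ _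
      _ ≤ ∑ j ∈ range k, ε := by
          apply sum_le_sum
          intro j hj
          rw [mem_range] at hj
          rw [norm_mul, norm_mul, norm_pow, norm_pow, norm_neg, norm_one, one_pow, one_mul, h0, one_pow, mul_one]
          exact hbound (j + 1) (by omega) (by omega)
      _ = k * ε := by simp
  have h4 : (k : ℝ) * ε = 1 / 2 := by rw [hε]; field_simp
  linarith

/-- one of `k + 1` equidistant points is far from `k` complex numbers -/
theorem far_point (k : ℕ) (hk : 1 ≤ k) (ρ : Fin k → ℂ) (a b : ℝ) (hab : a ≤ b) :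
    ∃ x1 : ℝ, a ≤ x1 ∧ x1 ≤ b ∧ ∀ i, (b - a) / (2 * k) ≤ ‖(x1 : ℂ) - ρ i‖ := by
  have hk' : (1 : ℝ) ≤ k := by exact_mod_cast hk
  have hk0 : (0 : ℝ) < k := by linarith
  by_contra hcon
  push Not at hcon
  have hp : ∀ j : Fin (k + 1), ∃ i : Fin k,
      ‖((a + (j : ℕ) * ((b - a) / k) : ℝ) : ℂ) - ρ i‖ < (b - a) / (2 * k) := by
    intro j
    have h1 : 0 ≤ (b - a) / k := div_nonneg (by linarith) hk0.le
    have h2 : ((j : ℕ) : ℝ) ≤ k := by exact_mod_cast Nat.le_of_lt_succ j.2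
    have h3 : ((j : ℕ) : ℝ) * ((b - a) / k) ≤ k * ((b - a) / k) := mul_le_mul_of_nonneg_right h2 h1
    have h4 : (k : ℝ) * ((b - a) / k) = b - a := by field_simp
    have h5 : 0 ≤ ((j : ℕ) : ℝ) * ((b - a) / k) := mul_nonneg (Nat.cast_nonneg _) h1
    exact hcon _ (by linarith) (by linarith)
  choose f hf using hp
  obtain ⟨j, j', hne, heq⟩ := Fintype.exists_ne_map_eq_of_card_lt f (by simp)
  have h1 := hf j
  have h2 := hf j'
  rw [← heq] at h2
  have h3 : ‖((a + (j : ℕ) * ((b - a) / k) : ℝ) : ℂ) - ((a + (j' : ℕ) * ((b - a) / k) : ℝ) : ℂ)‖ <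
      (b - a) / k := by
    calc ‖((a + (j : ℕ) * ((b - a) / k) : ℝ) : ℂ) - ((a + (j' : ℕ) * ((b - a) / k) : ℝ) : ℂ)‖
        = ‖(((a + (j : ℕ) * ((b - a) / k) : ℝ) : ℂ) - ρ (f j)) -
          (((a + (j' : ℕ) * ((b - a) / k) : ℝ) : ℂ) - ρ (f j))‖ := by
            congr 1; ring
      _ ≤ _ := norm_sub_le _ _
      _ < (b - a) / (2 * k) + (b - a) / (2 * k) := add_lt_add h1 h2
      _ = (b - a) / k := by field_simp; ring
  rw [← Complex.ofReal_sub, Complex.norm_real, Real.norm_eq_abs] at h3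
  have h4 : (a + (j : ℕ) * ((b - a) / k)) - (a + (j' : ℕ) * ((b - a) / k)) =
      (((j : ℕ) : ℤ) - ((j' : ℕ) : ℤ) : ℤ) * ((b - a) / k) := by push_cast; ring
  have h6 : 0 ≤ (b - a) / k := div_nonneg (by linarith) hk0.le
  rw [h4, abs_mul, abs_of_nonneg h6, ← Int.cast_abs] at h3
  have h5 : (1 : ℤ) ≤ |((j : ℕ) : ℤ) - ((j' : ℕ) : ℤ)| := by
    apply Int.one_le_abs
    intro h
    apply hne
    ext
    omega
  have h7 : (1 : ℝ) ≤ ((|((j : ℕ) : ℤ) - ((j' : ℕ) : ℤ)| : ℤ) : ℝ) := by exact_mod_cast h5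
  have h8 := mul_le_mul_of_nonneg_right h7 h6
  linarith

/-- an interval on which the polynomial varies by a factor at most two is short with respect to the distances of
its points from the roots -/
theorem len_le (k : ℕ) (ρ : Fin k → ℂ) (a b x0 : ℝ) (hab : a ≤ b)
    (h : ∀ x y : ℝ, a ≤ x → x ≤ b → a ≤ y → y ≤ b →
      ∏ i, ‖(x : ℂ) - ρ i‖ ≤ 2 * ∏ i, ‖(y : ℂ) - ρ i‖) (hx0 : a ≤ x0) (hx1 : x0 ≤ b) (i : Fin k) :
    b - a ≤ 4 * k * (1 + 2 * k) ^ k * ‖(x0 : ℂ) - ρ i‖ := by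
  have hk : 1 ≤ k := by have := i.2; omega
  have hk' : (1 : ℝ) ≤ k := by exact_mod_cast hk
  have hk0 : (0 : ℝ) < k := by linarith
  rcases hab.eq_or_lt with heq | hlt
  · rw [heq, sub_self]; positivity
  obtain ⟨x1, h1, h2, h3⟩ := far_point k hk ρ a b hab
  have hpos : ∀ j, 0 < ‖(x1 : ℂ) - ρ j‖ := fun j => lt_of_lt_of_le (by
    have : 0 < b - a := by linarith
    positivity) (h3 j)
  have hcmp : ∀ j, ‖(x0 : ℂ) - ρ j‖ ≤ (1 + 2 * k) * ‖(x1 : ℂ) - ρ j‖ := by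
    intro j
    have e1 : ‖(x0 : ℂ) - ρ j‖ ≤ ‖(x1 : ℂ) - ρ j‖ + (b - a) := by
      calc ‖(x0 : ℂ) - ρ j‖ = ‖((x1 : ℂ) - ρ j) + ((x0 : ℂ) - x1)‖ := by congr 1; ring
        _ ≤ ‖(x1 : ℂ) - ρ j‖ + ‖(x0 : ℂ) - x1‖ := norm_add_le _ _
        _ ≤ _ := by
            rw [← Complex.ofReal_sub, Complex.norm_real, Real.norm_eq_abs]
            have : |x0 - x1| ≤ b - a := by rw [abs_le]; constructor <;> linarith
            linarith
    have e2 : b - a ≤ 2 * k * ‖(x1 : ℂ) - ρ j‖ := by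
      have := h3 j
      rw [div_le_iff₀ (by positivity)] at this
      linarith
    linarith
  have hP := h x1 x0 h1 h2 hx0 hx1
  rw [← mul_prod_erase univ (fun j => ‖(x1 : ℂ) - ρ j‖) (mem_univ i),
    ← mul_prod_erase univ (fun j => ‖(x0 : ℂ) - ρ j‖) (mem_univ i)] at hP
  have hp0 : 0 < ∏ j ∈ univ.erase i, ‖(x1 : ℂ) - ρ j‖ := prod_pos fun j _ => hpos j
  have hp1 : ∏ j ∈ univ.erase i, ‖(x0 : ℂ) - ρ j‖ ≤ (1 + 2 * k) ^ k * ∏ j ∈ univ.erase i, ‖(x1 : ℂ) - ρ j‖ := by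
    calc ∏ j ∈ univ.erase i, ‖(x0 : ℂ) - ρ j‖ ≤ ∏ j ∈ univ.erase i, ((1 + 2 * k) * ‖(x1 : ℂ) - ρ j‖) :=
          prod_le_prod (fun _ _ => norm_nonneg _) (fun j _ => hcmp j)
      _ = (1 + 2 * k : ℝ) ^ (univ.erase i).card * ∏ j ∈ univ.erase i, ‖(x1 : ℂ) - ρ j‖ := by
          rw [prod_mul_distrib, prod_const]
      _ ≤ _ := by
          apply mul_le_mul_of_nonneg_right _ hp0.le
          apply pow_le_pow_right₀ (by linarith)
          rw [card_erase_of_mem (mem_univ i)]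
          simp
  have h4 : ‖(x1 : ℂ) - ρ i‖ ≤ 2 * (1 + 2 * k) ^ k * ‖(x0 : ℂ) - ρ i‖ := by
    have h5 : ‖(x1 : ℂ) - ρ i‖ * ∏ j ∈ univ.erase i, ‖(x1 : ℂ) - ρ j‖ ≤
        (2 * (1 + 2 * k) ^ k * ‖(x0 : ℂ) - ρ i‖) * ∏ j ∈ univ.erase i, ‖(x1 : ℂ) - ρ j‖ := by
      refine hP.trans ?_
      calc 2 * (‖(x0 : ℂ) - ρ i‖ * ∏ j ∈ univ.erase i, ‖(x0 : ℂ) - ρ j‖)
          ≤ 2 * (‖(x0 : ℂ) - ρ i‖ * ((1 + 2 * k) ^ k * ∏ j ∈ univ.erase i, ‖(x1 : ℂ) - ρ j‖)) := by gcongr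
        _ = _ := by ring
    exact le_of_mul_le_mul_right h5 hp0
  have h5 := h3 i
  rw [div_le_iff₀ (by positivity)] at h5
  calc b - a ≤ ‖(x1 : ℂ) - ρ i‖ * (2 * k) := h5
    _ ≤ (2 * (1 + 2 * k) ^ k * ‖(x0 : ℂ) - ρ i‖) * (2 * k) := by gcongr
    _ = _ := by ring

/-- the power sums of the `1 / (x - ρ i)` -/
noncomputable def PS {k : ℕ} (ρ : Fin k → ℂ) (m : ℕ) (x : ℝ) : ℂ := ∑ i, (((x : ℂ) - ρ i) ^ m)⁻¹

/-- the phase and its derivatives -/
noncomputable def PH {k : ℕ} (ρ : Fin k → ℂ) (κ : ℝ) : ℕ → ℝ → ℝ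
  | 0, x => κ * ∑ i, Real.log ‖(x : ℂ) - ρ i‖
  | m + 1, x => κ * ((-1) ^ m * m.factorial * (PS ρ (m + 1) x).re)

theorem log_norm_deriv (ρ : ℂ) (x : ℝ) (hx : (x : ℂ) ≠ ρ) :
    HasDerivAt (fun y : ℝ => Real.log ‖(y : ℂ) - ρ‖) (((x : ℂ) - ρ)⁻¹).re x := by
  have hne : (x : ℂ) - ρ ≠ 0 := sub_ne_zero.2 hx
  have hn0 : 0 < Complex.normSq ((x : ℂ) - ρ) := Complex.normSq_pos.2 hne
  have h1 : HasDerivAt (fun y : ℝ => (y - ρ.re) ^ 2 + ρ.im ^ 2) (2 * (x - ρ.re)) x := by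
    have h2 := (((hasDerivAt_id x).sub_const ρ.re).pow 2).add_const (ρ.im ^ 2)
    refine h2.congr_deriv ?_
    simp
  have hns : ∀ y : ℝ, Complex.normSq ((y : ℂ) - ρ) = (y - ρ.re) ^ 2 + ρ.im ^ 2 := by
    intro y
    rw [Complex.normSq_apply]
    simp
    ring
  have hval : (x - ρ.re) ^ 2 + ρ.im ^ 2 ≠ 0 := by rw [← hns]; exact hn0.ne'
  have h3 := (h1.log hval).const_mul (1 / 2 : ℝ)
  have hfun : (fun y : ℝ => Real.log ‖(y : ℂ) - ρ‖) =
      fun y : ℝ => 1 / 2 * Real.log ((y - ρ.re) ^ 2 + ρ.im ^ 2) := by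
    funext y
    rw [← hns, Complex.normSq_eq_norm_sq, Real.log_pow]
    push_cast
    ring
  rw [hfun]
  refine h3.congr_deriv ?_
  rw [Complex.inv_re, hns]
  simp
  ring

theorem inv_pow_deriv (ρ : ℂ) (m : ℕ) (x : ℝ) (hx : (x : ℂ) ≠ ρ) :
    HasDerivAt (fun y : ℝ => ((((y : ℂ) - ρ) ^ m)⁻¹).re) ((-(m : ℝ)) * ((((x : ℂ) - ρ) ^ (m + 1))⁻¹).re) x := by
  have hne : (x : ℂ) - ρ ≠ 0 := sub_ne_zero.2 hx
  have h1 : HasDerivAt (fun z : ℂ => ((z - ρ) ^ m)⁻¹) (-(m : ℂ) * (((x : ℂ) - ρ) ^ (m + 1))⁻¹) (x : ℂ) := by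
    have h2 := (((hasDerivAt_id (x : ℂ)).sub_const ρ).pow m).inv (pow_ne_zero m hne)
    refine h2.congr_deriv ?_
    simp only [id, mul_one]
    rcases m with _ | m
    · simp
    · simp only [Nat.add_sub_cancel, Pi.pow_apply]
      field_simp
      ring
  have h3 := h1.real_of_complex
  refine h3.congr_deriv ?_
  have : (-(m : ℂ) * (((x : ℂ) - ρ) ^ (m + 1))⁻¹) = ((-(m : ℝ) : ℝ) : ℂ) * (((x : ℂ) - ρ) ^ (m + 1))⁻¹ := by
    push_cast; ring
  rw [this, Complex.re_ofReal_mul]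

theorem PH_deriv {k : ℕ} (ρ : Fin k → ℂ) (κ : ℝ) (m : ℕ) (x : ℝ) (hx : ∀ i, (x : ℂ) ≠ ρ i) :
    HasDerivAt (PH ρ κ m) (PH ρ κ (m + 1) x) x := by
  rcases m with _ | m
  · have h1 : HasDerivAt (fun y : ℝ => ∑ i, Real.log ‖(y : ℂ) - ρ i‖) (∑ i, (((x : ℂ) - ρ i)⁻¹).re) x :=
      HasDerivAt.fun_sum fun i _ => log_norm_deriv (ρ i) x (hx i)
    have h2 := h1.const_mul κ
    refine h2.congr_deriv ?_
    simp only [PH, PS, zero_add, pow_zero, pow_one, Nat.factorial_zero, Nat.cast_one, one_mul, Complex.re_sum]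
  · have h1 : HasDerivAt (fun y : ℝ => ∑ i, ((((y : ℂ) - ρ i) ^ (m + 1))⁻¹).re)
        (∑ i, (-((m + 1 : ℕ) : ℝ)) * ((((x : ℂ) - ρ i) ^ (m + 1 + 1))⁻¹).re) x :=
      HasDerivAt.fun_sum fun i _ => inv_pow_deriv (ρ i) (m + 1) x (hx i)
    have h2 := h1.const_mul (κ * ((-1) ^ m * m.factorial))
    have hfun : PH ρ κ (m + 1) = fun y : ℝ => κ * ((-1) ^ m * m.factorial) * ∑ i, ((((y : ℂ) - ρ i) ^ (m + 1))⁻¹).re := by
      funext y
      simp only [PH, PS, Complex.re_sum]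
      ring
    rw [hfun]
    refine h2.congr_deriv ?_
    simp only [PH, PS, Complex.re_sum]
    rw [← mul_sum, Nat.factorial_succ]
    push_cast
    ring

/-- `PS` is real -/
theorem PS_real {k : ℕ} (ρ : Fin k → ℂ) (hc : ∀ f : ℂ → ℂ, ∑ i, f ((starRingEnd ℂ) (ρ i)) = ∑ i, f (ρ i))
    (m : ℕ) (x : ℝ) : ((PS ρ m x).re : ℂ) = PS ρ m x := by
  rw [← Complex.conj_eq_iff_re]
  unfold PS
  have h := hc (fun w => (((x : ℂ) - w) ^ m)⁻¹)
  rw [map_sum, ← h]
  apply sum_congr rfl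
  intro i _
  rw [map_inv₀, map_pow, map_sub, Complex.conj_ofReal]

theorem PS_abs {k : ℕ} (ρ : Fin k → ℂ) (hc : ∀ f : ℂ → ℂ, ∑ i, f ((starRingEnd ℂ) (ρ i)) = ∑ i, f (ρ i))
    (m : ℕ) (x : ℝ) : |(PS ρ m x).re| = ‖PS ρ m x‖ := by
  conv_rhs => rw [← PS_real ρ hc m x]
  rw [Complex.norm_real, Real.norm_eq_abs]

theorem PS_le {k : ℕ} (ρ : Fin k → ℂ) (m : ℕ) (x r : ℝ) (hr : 0 < r) (h : ∀ i, r ≤ ‖(x : ℂ) - ρ i‖) :
    |(PS ρ m x).re| ≤ k * (r ^ m)⁻¹ := by
  refine (Complex.abs_re_le_norm _).trans ?_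
  unfold PS
  refine (norm_sum_le _ _).trans ?_
  calc ∑ i, ‖(((x : ℂ) - ρ i) ^ m)⁻¹‖ ≤ ∑ i : Fin k, (r ^ m)⁻¹ := by
        apply sum_le_sum
        intro i _
        rw [norm_inv, norm_pow]
        have := h i
        gcongr
    _ = k * (r ^ m)⁻¹ := by simp

/-- one of the power sums of exponents `q, 2q, …, kq` is large -/
theorem PS_ge {k : ℕ} (ρ : Fin k → ℂ) (hc : ∀ f : ℂ → ℂ, ∑ i, f ((starRingEnd ℂ) (ρ i)) = ∑ i, f (ρ i))
    (q : ℕ) (x : ℝ) (i0 : Fin k) (hx : (x : ℂ) ≠ ρ i0) :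
    ∃ m : ℕ, 1 ≤ m ∧ m ≤ k ∧
      1 / (2 * k : ℝ) * (‖(x : ℂ) - ρ i0‖ ^ (q * m))⁻¹ ≤ |(PS ρ (q * m) x).re| := by
  set r : ℝ := ‖(x : ℂ) - ρ i0‖ with hr
  have hr0 : 0 < r := by rw [hr, norm_pos_iff]; exact sub_ne_zero.2 hx
  obtain ⟨m, h1, h2, h3⟩ := psum_lower k (fun i => ((r : ℂ) / ((x : ℂ) - ρ i)) ^ q) i0 (by
      rw [norm_pow, norm_div, Complex.norm_real, Real.norm_eq_abs, abs_of_pos hr0, ← hr, div_self hr0.ne', one_pow])
  refine ⟨m, h1, h2, ?_⟩
  rw [PS_abs ρ hc]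
  have h4 : ∑ i, (((r : ℂ) / ((x : ℂ) - ρ i)) ^ q) ^ m = (r : ℂ) ^ (q * m) * PS ρ (q * m) x := by
    unfold PS
    rw [mul_sum]
    apply sum_congr rfl
    intro i _
    rw [← pow_mul, div_pow, div_eq_mul_inv]
  rw [h4, norm_mul, norm_pow, Complex.norm_real, Real.norm_eq_abs, abs_of_pos hr0] at h3
  have h5 : 0 < r ^ (q * m) := by positivity
  calc 1 / (2 * k : ℝ) * (r ^ (q * m))⁻¹ ≤ (r ^ (q * m) * ‖PS ρ (q * m) x‖) * (r ^ (q * m))⁻¹ := by gcongr
    _ = ‖PS ρ (q * m) x‖ := by field_simp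

open Polynomial in
/-- the points where `PS` takes a given real value -/
theorem PS_zeros {k : ℕ} (hk : 1 ≤ k) (ρ : Fin k → ℂ)
    (hc : ∀ f : ℂ → ℂ, ∑ i, f ((starRingEnd ℂ) (ρ i)) = ∑ i, f (ρ i)) (m : ℕ) (hm : 1 ≤ m) (c : ℝ) :
    ∃ Z : Finset ℝ, Z.card ≤ k * m ∧ ∀ x : ℝ, (∀ i, (x : ℂ) ≠ ρ i) → (PS ρ m x).re = c → x ∈ Z := by
  classical
  set G : ℂ[X] := ∑ i, ∏ j ∈ univ.erase i, (X - C (ρ j)) ^ m with hG
  set Dm : ℂ[X] := ∏ j, (X - C (ρ j)) ^ m with hD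
  have hmon : ∀ s : Finset (Fin k), (∏ j ∈ s, (X - C (ρ j)) ^ m).Monic := fun s =>
    monic_prod_of_monic s _ fun j _ => (monic_X_sub_C (ρ j)).pow m
  have hdeg : ∀ s : Finset (Fin k), (∏ j ∈ s, (X - C (ρ j)) ^ m).natDegree = s.card * m := by
    intro s
    rw [natDegree_prod_of_monic s _ fun j _ => (monic_X_sub_C (ρ j)).pow m]
    simp [natDegree_pow]
  have hcardE : ∀ i : Fin k, (univ.erase i).card = k - 1 := by
    intro i
    rw [card_erase_of_mem (mem_univ i)]; simp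
  have hGdeg : G.natDegree ≤ (k - 1) * m := by
    apply natDegree_sum_le_of_forall_le
    intro i _
    rw [hdeg, hcardE]
  have hDdeg : Dm.natDegree = k * m := by rw [hD, hdeg]; simp
  have hlt : (k - 1) * m < k * m := Nat.mul_lt_mul_of_pos_right (by omega) (by omega)
  set Q : ℂ[X] := G - C (c : ℂ) * Dm with hQ
  have hQ0 : Q ≠ 0 := by
    intro h0
    by_cases hc0 : c = 0
    · have h1 := congrArg (fun p => coeff p ((k - 1) * m)) h0
      simp only [hQ, hc0, Complex.ofReal_zero, map_zero, zero_mul, sub_zero, coeff_zero] at h1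
      rw [hG, finsetSum_coeff] at h1
      have h2 : ∀ i ∈ (univ : Finset (Fin k)), (∏ j ∈ univ.erase i, (X - C (ρ j)) ^ m).coeff ((k - 1) * m) = 1 := by
        intro i _
        have h3 := (hmon (univ.erase i)).coeff_natDegree
        rwa [hdeg, hcardE] at h3
      rw [sum_congr rfl h2] at h1
      simp only [sum_const, card_univ, Fintype.card_fin, nsmul_eq_mul, mul_one] at h1
      have : (k : ℂ) ≠ 0 := by exact_mod_cast (by omega : k ≠ 0)
      exact this h1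
    · have h1 := congrArg (fun p => coeff p (k * m)) h0
      simp only [hQ, coeff_sub, coeff_C_mul, coeff_zero] at h1
      rw [coeff_eq_zero_of_natDegree_lt (lt_of_le_of_lt hGdeg hlt)] at h1
      have h3 : Dm.coeff (k * m) = 1 := by
        have h4 := (hmon univ).coeff_natDegree
        rw [← hD, hDdeg] at h4
        exact h4
      rw [h3, mul_one, zero_sub, neg_eq_zero] at h1
      exact hc0 (by exact_mod_cast h1)
  have hQdeg : Q.natDegree ≤ k * m := by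
    refine (natDegree_sub_le _ _).trans (max_le (hGdeg.trans hlt.le) ?_)
    exact (natDegree_C_mul_le _ _).trans hDdeg.le
  refine ⟨Q.roots.toFinset.image Complex.re, ?_, ?_⟩
  · exact card_image_le.trans ((Multiset.toFinset_card_le _).trans ((card_roots' Q).trans hQdeg))
  · intro x hx hval
    rw [mem_image]
    refine ⟨(x : ℂ), ?_, Complex.ofReal_re x⟩
    rw [Multiset.mem_toFinset, mem_roots hQ0, IsRoot.def]
    have hne : ∀ i, (x : ℂ) - ρ i ≠ 0 := fun i => sub_ne_zero.2 (hx i)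
    have h1 : eval (x : ℂ) G = (∏ j, ((x : ℂ) - ρ j) ^ m) * PS ρ m x := by
      unfold PS
      rw [hG, eval_finsetSum, mul_sum]
      apply sum_congr rfl
      intro i _
      rw [eval_prod, ← mul_prod_erase univ (fun j => ((x : ℂ) - ρ j) ^ m) (mem_univ i)]
      have : ((x : ℂ) - ρ i) ^ m ≠ 0 := pow_ne_zero m (hne i)
      simp only [eval_pow, eval_sub, eval_X, eval_C]
      field_simp
    have h2 : eval (x : ℂ) Dm = ∏ j, ((x : ℂ) - ρ j) ^ m := by
      rw [hD, eval_prod]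
      simp
    rw [hQ, eval_sub, eval_mul, eval_C, h1, h2, ← PS_real ρ hc m x, hval]
    ring

end Pool.Agent.H472.PV
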