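import Pool.Agent.H472.PV.Ker
import Pool.Agent.H472.PV.Roots

/-!
The exponential sum over an interval on which the polynomial varies by a bounded factor.
-/

set_option autoImplicit false

namespace Pool.Agent.H472.PV

open Finset
open Pool.Agent.H469R2.NK (e norm_e)

/-- splitting at finitely many points -/
theorem split (g : ℤ → ℂ) (hg : ∀ n, ‖g n‖ ≤ 1) (Bd : ℝ) (hB : 0 ≤ Bd) (Z : Finset ℝ) (n : ℕ) :
    ∀ a b : ℤ, (Z.filter (fun z => (a : ℝ) ≤ z ∧ z ≤ b)).card ≤ n →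
    (∀ a' b' : ℤ, a ≤ a' → a' ≤ b' → b' ≤ b → (∀ z ∈ Z, ¬ ((a' : ℝ) ≤ z ∧ z ≤ b')) →
      ‖∑ n ∈ Icc a' b', g n‖ ≤ Bd) →
    ‖∑ n ∈ Icc a b, g n‖ ≤ (n + 1) * Bd + n := by
  induction n using Nat.strong_induction_on with
  | _ n ih =>
    intro a b hcard h
    have hn0 : (0 : ℝ) ≤ n := Nat.cast_nonneg n
    rcases (Z.filter (fun z => (a : ℝ) ≤ z ∧ z ≤ b)).eq_empty_or_nonempty with he | ⟨z, hz⟩
    · rcases lt_or_ge b a with hab | hab
      · rw [Icc_eq_empty (by omega)]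
        simp only [sum_empty, norm_zero]
        positivity
      · have h1 := h a b le_rfl hab le_rfl (by
          intro z hz hz2
          have : z ∈ Z.filter (fun z => (a : ℝ) ≤ z ∧ z ≤ b) := mem_filter.2 ⟨hz, hz2⟩
          rw [he] at this
          exact absurd this (notMem_empty z))
        nlinarith
    · rw [mem_filter] at hz
      obtain ⟨hzZ, hza, hzb⟩ := hz
      set m : ℤ := ⌊z⌋ with hm
      have hm1 : (m : ℝ) ≤ z := Int.floor_le z
      have hm2 : z < m + 1 := Int.lt_floor_add_one z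
      have ham : a ≤ m := Int.le_floor.2 hza
      have hmb : m ≤ b := by exact_mod_cast hm1.trans hzb
      set n1 := (Z.filter (fun z => (a : ℝ) ≤ z ∧ z ≤ ((m - 1 : ℤ) : ℝ))).card with hn1
      set n2 := (Z.filter (fun z => (((m + 1 : ℤ) : ℝ)) ≤ z ∧ z ≤ b)).card with hn2
      have hsum : n1 + n2 + 1 ≤ n := by
        refine le_trans ?_ hcard
        rw [hn1, hn2, ← card_union_of_disjoint]
        · have h2 : insert z (Z.filter (fun z => (a : ℝ) ≤ z ∧ z ≤ ((m - 1 : ℤ) : ℝ)) ∪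
              Z.filter (fun z => (((m + 1 : ℤ) : ℝ)) ≤ z ∧ z ≤ b)) ⊆
              Z.filter (fun z => (a : ℝ) ≤ z ∧ z ≤ b) := by
            intro y hy
            rw [mem_insert, mem_union, mem_filter, mem_filter] at hy
            rw [mem_filter]
            have hmb' : (m : ℝ) ≤ b := by exact_mod_cast hmb
            have ham' : (a : ℝ) ≤ m := by exact_mod_cast ham
            push_cast at hy
            rcases hy with rfl | ⟨h3, h4, h5⟩ | ⟨h3, h4, h5⟩
            · exact ⟨hzZ, hza, hzb⟩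
            · exact ⟨h3, h4, by linarith⟩
            · exact ⟨h3, by linarith, h5⟩
          have h3 := card_le_card h2
          rwa [card_insert_of_notMem] at h3
          intro hy
          rw [mem_union, mem_filter, mem_filter] at hy
          push_cast at hy
          rcases hy with ⟨_, _, h5⟩ | ⟨_, h4, _⟩ <;> linarith
        · rw [disjoint_left]
          intro y hy hy2
          rw [mem_filter] at hy hy2
          have h4 := hy.2.2
          have h5 := hy2.2.1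
          push_cast at h4 h5
          linarith
      have i1 := ih n1 (by omega) a (m - 1) le_rfl (fun a' b' e1 e2 e3 e4 => h a' b' e1 e2 (by omega) e4)
      have i2 := ih n2 (by omega) (m + 1) b le_rfl (fun a' b' e1 e2 e3 e4 => h a' b' (by omega) e2 e3 e4)
      have hset : Icc a b = Icc a (m - 1) ∪ insert m (Icc (m + 1) b) := by
        ext x
        simp only [mem_union, mem_insert, mem_Icc]
        omega
      have hdis : Disjoint (Icc a (m - 1)) (insert m (Icc (m + 1) b)) := by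
        rw [disjoint_left]
        intro x hx hx2
        simp only [mem_insert, mem_Icc] at hx hx2
        omega
      rw [hset, sum_union hdis, sum_insert (by rw [mem_Icc]; omega)]
      have hsum' : (n1 : ℝ) + n2 + 1 ≤ n := by exact_mod_cast hsum
      have hg1 := hg m
      calc ‖∑ x ∈ Icc a (m - 1), g x + (g m + ∑ x ∈ Icc (m + 1) b, g x)‖
          ≤ ‖∑ x ∈ Icc a (m - 1), g x‖ + (‖g m‖ + ‖∑ x ∈ Icc (m + 1) b, g x‖) :=
            (norm_add_le _ _).trans (by gcongr; exact norm_add_le _ _)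
        _ ≤ ((n1 + 1) * Bd + n1) + (1 + ((n2 + 1) * Bd + n2)) := by gcongr
        _ = (n1 + n2 + 1 + 1) * Bd + (n1 + n2 + 1) := by ring
        _ ≤ _ := by gcongr

theorem sign_gt (f : ℝ → ℝ) (a b c x1 : ℝ) (hf : ContinuousOn f (Set.Icc a b))
    (h : ∀ x, a ≤ x → x ≤ b → f x ≠ c) (h1 : a ≤ x1) (h2 : x1 ≤ b) (h3 : c < f x1) :
    ∀ x, a ≤ x → x ≤ b → c < f x := by
  intro x hx1 hx2
  by_contra hcon
  rw [not_lt] at hcon
  have h4 := isPreconnected_Icc.intermediate_value (a := x) (b := x1) (f := f) (s := Set.Icc a b)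
    ⟨hx1, hx2⟩ ⟨h1, h2⟩ hf
  obtain ⟨y, hy, hy2⟩ := h4 ⟨hcon, h3.le⟩
  exact h y hy.1 hy.2 hy2

theorem sum_Icc_int (g : ℤ → ℂ) (a : ℤ) (L : ℕ) :
    ∑ n ∈ Icc a (a + L), g n = ∑ j ∈ range (L + 1), g (a + j) := by
  symm
  apply sum_nbij' (fun j : ℕ => a + (j : ℤ)) (fun n : ℤ => (n - a).toNat)
  · intro j hj
    rw [mem_range] at hj
    rw [mem_Icc]
    omega
  · intro n hn
    rw [mem_Icc] at hn
    rw [mem_range]
    omega
  · intro j hj
    simp
  · intro n hn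
    rw [mem_Icc] at hn
    omega
  · intro j _
    rfl

theorem PS_cont {k : ℕ} (ρ : Fin k → ℂ) (m : ℕ) (a b : ℝ) (h : ∀ x : ℝ, a ≤ x → x ≤ b → ∀ i, (x : ℂ) ≠ ρ i) :
    ContinuousOn (fun x : ℝ => (PS ρ m x).re) (Set.Icc a b) := by
  intro x hx
  have h1 : HasDerivAt (fun y : ℝ => ∑ i, ((((y : ℂ) - ρ i) ^ m)⁻¹).re)
      (∑ i, (-(m : ℝ)) * ((((x : ℂ) - ρ i) ^ (m + 1))⁻¹).re) x :=
    HasDerivAt.fun_sum fun i _ => inv_pow_deriv (ρ i) m x (h x hx.1 hx.2 i)
  have h2 : (fun x : ℝ => (PS ρ m x).re) = fun y : ℝ => ∑ i, ((((y : ℂ) - ρ i) ^ m)⁻¹).re := by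
    funext y
    simp only [PS, Complex.re_sum]
  rw [h2]
  exact h1.continuousAt.continuousWithinAt

/-- the threshold -/
noncomputable def thr (k : ℕ) (B : ℝ) (m : ℕ) : ℝ := 1 / (4 * k) * (B ^ m)⁻¹

/-- the exponential sum over an interval without special points -/
theorem piece (k q : ℕ) (hq : 2 ≤ q) (W C1 : ℝ) (hW : 1 ≤ W) (hC1 : 1 ≤ C1) : ∃ C : ℝ, 1 ≤ C ∧
    ∀ (ρ : Fin k → ℂ), (∀ f : ℂ → ℂ, ∑ i, f ((starRingEnd ℂ) (ρ i)) = ∑ i, f (ρ i)) →
      ∀ (κ R : ℝ), 1 ≤ R → R ≤ C1 * κ → κ ≤ C1 * R ^ (q - 1) →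
      ∀ a b : ℤ, a ≤ b → (b : ℝ) - a ≤ W * R →
      (∀ x : ℝ, a ≤ x → x ≤ b → ∀ i, R / W ≤ ‖(x : ℂ) - ρ i‖) →
      (∃ i, ‖((a : ℝ) : ℂ) - ρ i‖ ≤ W * R) →
      (∀ m : ℕ, 1 ≤ m → m ≤ k → ∀ x : ℝ, a ≤ x → x ≤ b → (PS ρ (q * m) x).re ≠ thr k (W * R) (q * m) ∧
        (PS ρ (q * m) x).re ≠ -thr k (W * R) (q * m) ∧ (PS ρ (q * m + 1) x).re ≠ 0) →
      ‖∑ n ∈ Icc a b, e (PH ρ κ 0 n)‖ ≤ C * R ^ (1 - 1 / (2 * (k * q : ℕ) * 2 ^ (k * q)) : ℝ) := by
  set C1' : ℝ := 4 * (k + 1) ^ 2 * W ^ (2 * (k * q)) * C1 * (k * q).factorial with hC1'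
  have hW0 : 0 < W := by linarith
  have hk0 : (0 : ℝ) ≤ k := Nat.cast_nonneg k
  have hWp : (1 : ℝ) ≤ W ^ (2 * (k * q)) := one_le_pow₀ hW
  have hfac1 : (1 : ℝ) ≤ (k * q).factorial := by exact_mod_cast Nat.one_le_iff_ne_zero.2 (Nat.factorial_ne_zero _)
  have hkk : (1 : ℝ) ≤ 4 * (k + 1) ^ 2 := by nlinarith
  have hC1'1 : 1 ≤ C1' := by
    rw [hC1']
    exact one_le_mul_of_one_le_of_one_le (one_le_mul_of_one_le_of_one_le
      (one_le_mul_of_one_le_of_one_le hkk hWp) hC1) hfac1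
  have hchoose : ∀ p : ℕ, ∃ C : ℝ, 1 ≤ C ∧ (1 ≤ p → 
    ∀ (φ : ℕ → ℝ → ℝ) (a : ℝ) (L : ℕ) (R l σ τ : ℝ), 1 ≤ R → (L : ℝ) ≤ C1' * R → 0 < l → l ≤ C1' * R⁻¹ →
      1 ≤ C1' * R ^ p * l → Chain φ a (a + L) → (σ = 1 ∨ σ = -1) → (τ = 1 ∨ τ = -1) →
      (∀ x, a ≤ x → x ≤ a + L → l ≤ σ * φ (p + 1) x ∧ σ * φ (p + 1) x ≤ C1' * l) →
      (∀ x, a ≤ x → x ≤ a + L → 0 ≤ τ * φ (p + 2) x) →
      ‖SD (φ 0) a L []‖ ≤ C * R ^ (1 - 1 / (2 * p * 2 ^ p) : ℝ)) := by
    intro p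
    rcases Nat.eq_zero_or_pos p with hp | hp
    · exact ⟨1, le_rfl, fun h => absurd h (by omega)⟩
    · obtain ⟨C, hC, h⟩ := ker0G p hp C1' hC1'1
      exact ⟨C, hC, fun _ => h⟩
  choose Cf hCf1 hCf using hchoose
  refine ⟨∑ p ∈ range (k * q + 1), Cf p + 1, ?_, ?_⟩
  · have : 0 ≤ ∑ p ∈ range (k * q + 1), Cf p := sum_nonneg fun p _ => by linarith [hCf1 p]
    linarith
  intro ρ hc κ R hR hRκ hκR a b hab hlen hlow hup hspec
  obtain ⟨i0, hi0⟩ := hup
  have hk1 : 1 ≤ k := by have := i0.2; omega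
  have hk' : (1 : ℝ) ≤ k := by exact_mod_cast hk1
  have hR0 : 0 < R := by linarith
  have hab' : (a : ℝ) ≤ b := by exact_mod_cast hab
  have hκ0 : 0 < κ := by
    by_contra h
    rw [not_lt] at h
    nlinarith
  have hne : ∀ x : ℝ, a ≤ x → x ≤ b → ∀ i, (x : ℂ) ≠ ρ i := by
    intro x h1 h2 i heq
    have h3 := hlow x h1 h2 i
    rw [heq, sub_self, norm_zero] at h3
    have : 0 < R / W := by positivity
    linarith
  obtain ⟨m, hm1, hmk, hm⟩ := PS_ge ρ hc q (a : ℝ) i0 (hne a le_rfl hab' i0)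
  obtain ⟨M, hM⟩ : ∃ M : ℕ, M = q * m := ⟨_, rfl⟩
  rw [← hM] at hm
  have hMq : q ≤ M := by rw [hM]; exact Nat.le_mul_of_pos_right q (by omega)
  have hMkq : M ≤ k * q := by rw [hM, Nat.mul_comm k q]; exact Nat.mul_le_mul_left q hmk
  obtain ⟨p, hp⟩ : ∃ p : ℕ, M = p + 1 := ⟨M - 1, by omega⟩
  have hp1 : 1 ≤ p := by omega
  have hpkq : p ≤ k * q := by omega
  set t : ℝ := thr k (W * R) M with ht
  have ht0 : 0 < t := by rw [ht]; unfold thr; positivity
  have hWRM : 0 < (W * R) ^ M := by positivity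
  -- the value at `a`
  have hval : t < |(PS ρ M (a : ℝ)).re| := by
    have h1 : 1 / (2 * k : ℝ) * ((W * R) ^ M)⁻¹ ≤ 1 / (2 * k : ℝ) * (‖((a : ℝ) : ℂ) - ρ i0‖ ^ M)⁻¹ := by
      have h2 : 0 < ‖((a : ℝ) : ℂ) - ρ i0‖ := by
        rw [norm_pos_iff]; exact sub_ne_zero.2 (hne a le_rfl hab' i0)
      gcongr
    have h3 : t + t = 1 / (2 * k : ℝ) * ((W * R) ^ M)⁻¹ := by
      rw [ht]; unfold thr; field_simp; ring
    linarith
  -- the sign of `PS`
  have hs : ∃ s : ℝ, (s = 1 ∨ s = -1) ∧ ∀ x : ℝ, a ≤ x → x ≤ b → t ≤ s * (PS ρ M x).re := by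
    rcases lt_abs.1 hval with h | h
    · refine ⟨1, Or.inl rfl, ?_⟩
      intro x h1 h2
      rw [one_mul]
      exact (sign_gt (fun x : ℝ => (PS ρ M x).re) a b t a (PS_cont ρ M a b hne)
        (fun x h1 h2 => by rw [hM]; exact (hspec m hm1 hmk x h1 h2).1 |> fun h => by rw [ht, hM]; exact h)
        le_rfl hab' h x h1 h2).le
    · refine ⟨-1, Or.inr rfl, ?_⟩
      intro x h1 h2
      have := (sign_gt (fun x : ℝ => -(PS ρ M x).re) a b t a (PS_cont ρ M a b hne).neg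
        (fun x h1 h2 h3 => by
          have h4 := (hspec m hm1 hmk x h1 h2).2.1
          rw [← hM, ← ht] at h4
          apply h4
          linarith)
        le_rfl hab' h x h1 h2).le
      linarith
  have hs' : ∃ s : ℝ, (s = 1 ∨ s = -1) ∧ ∀ x : ℝ, a ≤ x → x ≤ b → 0 ≤ s * (PS ρ (M + 1) x).re := by
    have h0 := (hspec m hm1 hmk a le_rfl hab').2.2
    rw [← hM] at h0
    rcases lt_or_gt_of_ne h0 with h | h
    · refine ⟨-1, Or.inr rfl, ?_⟩
      intro x h1 h2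
      have := (sign_gt (fun x : ℝ => -(PS ρ (M + 1) x).re) a b 0 a (PS_cont ρ (M + 1) a b hne).neg
        (fun x h1 h2 h3 => by
          have h4 := (hspec m hm1 hmk x h1 h2).2.2
          rw [← hM] at h4
          apply h4
          linarith)
        le_rfl hab' (by linarith) x h1 h2).le
      linarith
    · refine ⟨1, Or.inl rfl, ?_⟩
      intro x h1 h2
      rw [one_mul]
      exact (sign_gt (fun x : ℝ => (PS ρ (M + 1) x).re) a b 0 a (PS_cont ρ (M + 1) a b hne)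
        (fun x h1 h2 => by
          have h4 := (hspec m hm1 hmk x h1 h2).2.2
          rwa [← hM] at h4)
        le_rfl hab' h x h1 h2).le
  obtain ⟨s, hs1, hs2⟩ := hs
  obtain ⟨s', hs1', hs2'⟩ := hs'
  obtain ⟨L, hL⟩ : ∃ L : ℕ, b = a + L := ⟨(b - a).toNat, by omega⟩
  have hbL : (b : ℝ) = a + L := by rw [hL]; push_cast; ring
  have hLle : (L : ℝ) ≤ W * R := by
    have : (L : ℝ) = b - a := by rw [hbL]; ring
    rw [this]; exact hlen
  have hfacp : (1 : ℝ) ≤ p.factorial := by exact_mod_cast Nat.one_le_iff_ne_zero.2 (Nat.factorial_ne_zero _)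
  have hfacp2 : (p.factorial : ℝ) ≤ (k * q).factorial := by exact_mod_cast Nat.factorial_le hpkq
  set l : ℝ := κ * (p.factorial * t) with hl
  have hl0 : 0 < l := by positivity
  have hsign : ∀ j : ℕ, ((-1 : ℝ) ^ j) * (-1) ^ j = 1 := by
    intro j
    rw [← mul_pow]; norm_num
  have hpm : ∀ (j : ℕ) (s : ℝ), (s = 1 ∨ s = -1) → ((-1 : ℝ) ^ j * s = 1 ∨ (-1 : ℝ) ^ j * s = -1) := by
    intro j s hs
    rcases neg_one_pow_eq_or ℝ j with h | h <;> rcases hs with h' | h' <;> rw [h, h'] <;> norm_num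
  have hWM : W ^ M ≤ W ^ (k * q) := pow_le_pow_right₀ hW hMkq
  have hWM2 : W ^ (k * q) ≤ W ^ (2 * (k * q)) := pow_le_pow_right₀ hW (by omega)
  have hWM0 : 0 < W ^ M := by positivity
  have hRM0 : 0 < R ^ M := by positivity
  have htval : t = 1 / (4 * k) * ((W ^ M)⁻¹ * (R ^ M)⁻¹) := by
    rw [ht]; unfold thr; rw [mul_pow, mul_inv]
  have hk1' : (k : ℝ) ≤ (k + 1) ^ 2 := by nlinarith
  have key := hCf p hp1 (PH ρ κ) a L R l ((-1) ^ p * s) ((-1) ^ (p + 1) * s') hR (by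
      refine hLle.trans ?_
      apply mul_le_mul_of_nonneg_right _ hR0.le
      have h1 : W ≤ W ^ (2 * (k * q)) := by
        apply le_self_pow₀ hW
        have : 0 < k * q := by positivity
        omega
      calc W ≤ W ^ (2 * (k * q)) := h1
        _ = 1 * W ^ (2 * (k * q)) * 1 * 1 := by ring
        _ ≤ C1' := by rw [hC1']; gcongr) hl0 (by
      -- `l ≤ C1' / R`
      have h1 : t ≤ (R ^ M)⁻¹ := by
        rw [htval]
        have h2 : (W ^ M)⁻¹ ≤ 1 := inv_le_one_of_one_le₀ (one_le_pow₀ hW)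
        have h3 : 1 / (4 * k : ℝ) ≤ 1 := by rw [div_le_one (by positivity)]; linarith
        calc 1 / (4 * k : ℝ) * ((W ^ M)⁻¹ * (R ^ M)⁻¹) ≤ 1 * (1 * (R ^ M)⁻¹) := by gcongr
          _ = _ := by ring
      have h2 : R ^ (q - 1) * (R ^ M)⁻¹ ≤ R⁻¹ := by
        rw [← div_eq_mul_inv, div_le_iff₀ hRM0]
        have h3 : R ^ (q - 1) * R ≤ R ^ M := by
          rw [← pow_succ]
          exact pow_le_pow_right₀ hR (by omega)
        calc R ^ (q - 1) = R⁻¹ * (R ^ (q - 1) * R) := by field_simp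
          _ ≤ R⁻¹ * R ^ M := by gcongr
      calc l = κ * (p.factorial * t) := hl
        _ ≤ (C1 * R ^ (q - 1)) * ((k * q).factorial * (R ^ M)⁻¹) := by gcongr
        _ = (1 * 1 * C1 * (k * q).factorial) * (R ^ (q - 1) * (R ^ M)⁻¹) := by ring
        _ ≤ C1' * R⁻¹ := by
            rw [hC1']
            gcongr) (by
      -- `1 ≤ C1' R^p l`
      have h1 : C1' * R ^ p * l ≥ (4 * k * W ^ M * C1) * R ^ p * (κ * (1 * t)) := by
        rw [hC1', hl]
        have h2 : 4 * k * W ^ M * C1 ≤ 4 * (k + 1) ^ 2 * W ^ (2 * (k * q)) * C1 * (k * q).factorial := by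
          calc 4 * k * W ^ M * C1 = 4 * k * W ^ M * C1 * 1 := by ring
            _ ≤ 4 * (k + 1) ^ 2 * W ^ (2 * (k * q)) * C1 * (k * q).factorial := by
              have := hWM.trans hWM2
              gcongr
        gcongr
      refine le_trans ?_ h1
      rw [htval]
      have h2 : 4 * k * W ^ M * C1 * R ^ p * (κ * (1 * (1 / (4 * k) * ((W ^ M)⁻¹ * (R ^ M)⁻¹)))) =
          (C1 * κ) * (R ^ p * (R ^ M)⁻¹) := by
        field_simp
      rw [h2]
      have h3 : R ^ p * (R ^ M)⁻¹ = R⁻¹ := by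
        rw [hp, pow_succ]; field_simp
      rw [h3, ← div_eq_mul_inv, one_le_div hR0]
      exact hRκ) (by
      intro j x h1 h2
      exact PH_deriv ρ κ j x (hne x h1 (by rw [hbL]; exact h2))) (hpm p s hs1) (hpm (p + 1) s' hs1') (by
      intro x h1 h2
      have h2' : x ≤ b := by rw [hbL]; exact h2
      have e1 : (-1) ^ p * s * PH ρ κ (p + 1) x = κ * (p.factorial * (s * (PS ρ M x).re)) := by
        simp only [PH]
        rw [← hp]
        calc (-1) ^ p * s * (κ * ((-1) ^ p * p.factorial * (PS ρ M x).re)) =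
            ((-1) ^ p * (-1) ^ p) * (κ * (p.factorial * (s * (PS ρ M x).re))) := by ring
          _ = _ := by rw [hsign, one_mul]
      rw [e1]
      constructor
      · rw [hl]
        have := hs2 x h1 h2'
        gcongr
      · have h3 := PS_le ρ M x (R / W) (by positivity) (hlow x h1 h2')
        have h4 : s * (PS ρ M x).re ≤ |(PS ρ M x).re| := by
          rcases hs1 with h | h <;> rw [h]
          · rw [one_mul]; exact le_abs_self _
          · rw [neg_one_mul]; exact neg_le_abs _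
        have h5 : s * (PS ρ M x).re ≤ (4 * (k + 1) ^ 2 * W ^ (2 * (k * q))) * t := by
          refine h4.trans (h3.trans ?_)
          rw [htval, div_pow, inv_div]
          have h6 : W ^ M * W ^ M ≤ W ^ (2 * (k * q)) := by
            rw [← pow_add]
            exact pow_le_pow_right₀ hW (by omega)
          have h7 : (k : ℝ) * k ≤ (k + 1) ^ 2 := by nlinarith
          have h8 : (k : ℝ) * (W ^ M / R ^ M) = (4 * (k * k) * (W ^ M * W ^ M)) * (1 / (4 * k) * ((W ^ M)⁻¹ * (R ^ M)⁻¹)) := by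
            field_simp
          rw [h8]
          gcongr
        calc κ * (p.factorial * (s * (PS ρ M x).re))
            ≤ κ * (p.factorial * ((4 * (k + 1) ^ 2 * W ^ (2 * (k * q))) * t)) := by gcongr
          _ = (4 * (k + 1) ^ 2 * W ^ (2 * (k * q)) * 1 * 1) * l := by rw [hl]; ring
          _ ≤ C1' * l := by rw [hC1']; gcongr) (by
      intro x h1 h2
      have h2' : x ≤ b := by rw [hbL]; exact h2
      have e1 : (-1) ^ (p + 1) * s' * PH ρ κ (p + 2) x = κ * ((p + 1).factorial * (s' * (PS ρ (M + 1) x).re)) := by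
        simp only [PH]
        rw [hp]
        calc (-1) ^ (p + 1) * s' * (κ * ((-1) ^ (p + 1) * (p + 1).factorial * (PS ρ (p + 1 + 1) x).re)) =
            ((-1) ^ (p + 1) * (-1) ^ (p + 1)) * (κ * ((p + 1).factorial * (s' * (PS ρ (p + 1 + 1) x).re))) := by ring
          _ = _ := by rw [hsign, one_mul]
      rw [e1]
      have h3 := hs2' x h1 h2'
      positivity)
  -- from `SD` to the sum
  have hsum : ∑ n ∈ Icc a b, e (PH ρ κ 0 n) = SD (PH ρ κ 0) a L [] + e (PH ρ κ 0 ((a + L : ℤ) : ℝ)) := by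
    rw [hL, sum_Icc_int (fun n : ℤ => e (PH ρ κ 0 n)) a L, sum_range_succ]
    congr 1
    unfold SD
    simp only [List.sum_nil, Nat.sub_zero, ED]
    apply sum_congr rfl
    intro j _
    push_cast
    rfl
  rw [hsum]
  have hCp : Cf p ≤ ∑ p ∈ range (k * q + 1), Cf p :=
    single_le_sum (fun i _ => by linarith [hCf1 i]) (mem_range.2 (by omega))
  have hexp : (1 - 1 / (2 * p * 2 ^ p) : ℝ) ≤ 1 - 1 / (2 * (k * q : ℕ) * 2 ^ (k * q)) := by
    have h1 : (p : ℝ) ≤ ((k * q : ℕ) : ℝ) := by exact_mod_cast hpkq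
    have h2 : (2 : ℝ) ^ p ≤ 2 ^ (k * q) := pow_le_pow_right₀ (by norm_num) hpkq
    have h3 : (0 : ℝ) < p := by exact_mod_cast hp1
    have h4 : 1 / (2 * ((k * q : ℕ) : ℝ) * 2 ^ (k * q)) ≤ 1 / (2 * p * 2 ^ p : ℝ) := by
      apply one_div_le_one_div_of_le (by positivity)
      gcongr
    linarith
  have hexp0 : (0 : ℝ) ≤ 1 - 1 / (2 * (k * q : ℕ) * 2 ^ (k * q)) := by
    have h1 : (1 : ℝ) ≤ ((k * q : ℕ) : ℝ) := by exact_mod_cast (by omega : 1 ≤ k * q)
    have h2 : (1 : ℝ) ≤ 2 ^ (k * q) := one_le_pow₀ (by norm_num)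
    have h3 : 1 / (2 * ((k * q : ℕ) : ℝ) * 2 ^ (k * q)) ≤ 1 := by
      rw [div_le_one (by positivity)]
      nlinarith
    linarith
  calc ‖SD (PH ρ κ 0) a L [] + e (PH ρ κ 0 ((a + L : ℤ) : ℝ))‖
      ≤ ‖SD (PH ρ κ 0) a L []‖ + ‖e (PH ρ κ 0 ((a + L : ℤ) : ℝ))‖ := norm_add_le _ _
    _ ≤ Cf p * R ^ (1 - 1 / (2 * p * 2 ^ p) : ℝ) + 1 := by
        rw [norm_e]
        gcongr
    _ ≤ (∑ p ∈ range (k * q + 1), Cf p) * R ^ (1 - 1 / (2 * (k * q : ℕ) * 2 ^ (k * q)) : ℝ) +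
        1 * R ^ (1 - 1 / (2 * (k * q : ℕ) * 2 ^ (k * q)) : ℝ) := by
        have h1 := Real.rpow_le_rpow_of_exponent_le hR hexp
        have h2 : (1 : ℝ) ≤ R ^ (1 - 1 / (2 * (k * q : ℕ) * 2 ^ (k * q)) : ℝ) := Real.one_le_rpow hR hexp0
        have h3 : 0 ≤ ∑ p ∈ range (k * q + 1), Cf p := sum_nonneg fun p _ => by linarith [hCf1 p]
        rw [one_mul]
        gcongr
    _ = _ := by ring

end Pool.Agent.H472.PV
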