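import Pool.Graph.R_seed8.H442R2.EHI.VdC
import Pool.Graph.R_seed8.TH705.DL.Block
import Pool.Graph.R_seed8.R327.SIFin

/-!
Derivative tests of van der Corput for a general phase, given by a chain of derivatives.
-/

set_option autoImplicit false

namespace Pool.Agent.H472.PV

open Finset
open Pool.Agent.H469R2.NK (e norm_e e_add conj_e vdcH Cq Cq_pos iterate Av_le harm_le kusmin_landau_mono
  kusmin_landau_anti norm_sum_neg)

/-- iterated differences -/
noncomputable def ED (f : ℝ → ℝ) : List ℕ → ℝ → ℝ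
  | [], x => f x
  | l :: ls, x => ED f ls (x + l) - ED f ls x

/-- a chain of derivatives on `[a,b]` -/
def Chain (φ : ℕ → ℝ → ℝ) (a b : ℝ) : Prop :=
  ∀ (j : ℕ) (x : ℝ), a ≤ x → x ≤ b → HasDerivAt (φ j) (φ (j + 1) x) x

lemma hasDerivAt_ED {φ : ℕ → ℝ → ℝ} {a b : ℝ} (h : Chain φ a b) (ls : List ℕ) (j : ℕ) {x : ℝ} (hx : a ≤ x)
    (hx2 : x + (ls.sum : ℕ) ≤ b) : HasDerivAt (ED (φ j) ls) (ED (φ (j + 1)) ls x) x := by
  induction ls generalizing x with
  | nil =>
    have : x ≤ b := by simpa using hx2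
    exact h j x hx this
  | cons l ls ih =>
    rw [List.sum_cons, Nat.cast_add] at hx2
    have hl : (0 : ℝ) ≤ l := Nat.cast_nonneg _
    have h1 : HasDerivAt (fun y => ED (φ j) ls (y + l)) (ED (φ (j + 1)) ls (x + l)) x := by
      have := ih (x := x + l) (by linarith) (by linarith)
      exact this.comp_add_const x (l : ℝ)
    exact h1.sub (ih hx (by linarith))

lemma ED_mvt {φ : ℕ → ℝ → ℝ} {a b : ℝ} (h : Chain φ a b) (ls : List ℕ) (j : ℕ) {x : ℝ} (hx : a ≤ x)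
    (hx2 : x + (ls.sum : ℕ) ≤ b) : ∃ ξ : ℝ, x ≤ ξ ∧ ξ ≤ x + (ls.sum : ℕ) ∧
      ED (φ j) ls x = (ls.prod : ℕ) * φ (j + ls.length) ξ := by
  induction ls generalizing x j with
  | nil =>
    refine ⟨x, le_rfl, by simp, by simp [ED]⟩
  | cons l ls ih =>
    rw [List.sum_cons, Nat.cast_add] at *
    rcases Nat.eq_zero_or_pos l with rfl | hl
    · have h0 : (0 : ℝ) ≤ ((ls.sum : ℕ) : ℝ) := Nat.cast_nonneg _
      refine ⟨x, le_rfl, by rw [Nat.cast_zero]; linarith, ?_⟩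
      simp [ED]
    have hl' : (0 : ℝ) < l := by exact_mod_cast hl
    obtain ⟨η, hη, hη2⟩ := exists_hasDerivAt_eq_slope (ED (φ j) ls) (ED (φ (j + 1)) ls) (a := x) (b := x + l)
      (by linarith)
      (fun y hy => (hasDerivAt_ED h ls j (by linarith [hy.1]) (by linarith [hy.2])).continuousAt.continuousWithinAt)
      (fun y hy => hasDerivAt_ED h ls j (by linarith [hy.1]) (by linarith [hy.2]))
    obtain ⟨ξ, h1, h2, h3⟩ := ih (j + 1) (x := η) (by linarith [hη.1]) (by linarith [hη.2])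
    refine ⟨ξ, by linarith [hη.1], by linarith [hη.2], ?_⟩
    have h4 : ED (φ j) (l :: ls) x = l * ED (φ (j + 1)) ls η := by
      simp only [ED]
      rw [hη2, add_sub_cancel_left]; field_simp
    rw [h4, h3, List.prod_cons, Nat.cast_mul, List.length_cons, mul_assoc]
    congr 3
    omega

/-- the differenced sum -/
noncomputable def SD (f : ℝ → ℝ) (a : ℝ) (L : ℕ) (ls : List ℕ) : ℂ :=
  ∑ n ∈ range (L - ls.sum), e (ED f ls (a + n))

lemma SD_sq (f : ℝ → ℝ) (a : ℝ) (L H : ℕ) (ls : List ℕ) :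
    (H : ℝ) * ‖SD f a L ls‖ ^ 2 ≤ (L + H) * (L + 2 * ∑ l ∈ Ico 1 H, ‖SD f a L (l :: ls)‖) := by
  have h := vdcH (fun n => e (ED f ls (a + (n : ℝ)))) (fun n => (norm_e _).le) (L - ls.sum) H
  have h1 : ∀ l, ∑ n ∈ range (L - ls.sum - l), e (ED f ls (a + ((n + l : ℕ) : ℝ))) *
      (starRingEnd ℂ) (e (ED f ls (a + (n : ℝ)))) = SD f a L (l :: ls) := by
    intro l
    unfold SD
    rw [List.sum_cons, show L - (l + ls.sum) = L - ls.sum - l by omega]
    refine sum_congr rfl fun n _ => ?_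
    rw [conj_e, ← e_add]
    congr 1
    simp only [ED]
    push_cast
    rw [show a + n + l = a + (n + l) by ring]
    ring
  simp only [h1] at h
  refine h.trans ?_
  have h2 : ((L - ls.sum : ℕ) : ℝ) ≤ L := by exact_mod_cast Nat.sub_le _ _
  gcongr

/-- last step: Kusmin–Landau -/
lemma SD_le {φ : ℕ → ℝ → ℝ} {a : ℝ} {L : ℕ} (h : Chain φ a (a + L)) (ls : List ℕ) (hls : 0 < ls.prod)
    {l1 l2 σ τ : ℝ} (hl1 : 0 < l1) (hσ : σ = 1 ∨ σ = -1) (hτ : τ = 1 ∨ τ = -1)
    (h1 : ∀ x, a ≤ x → x ≤ a + L → l1 ≤ σ * φ (ls.length + 1) x ∧ σ * φ (ls.length + 1) x ≤ l2)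
    (h2 : ∀ x, a ≤ x → x ≤ a + L → 0 ≤ τ * φ (ls.length + 2) x)
    (hup : 2 * (l2 * (ls.prod : ℕ)) ≤ 1) :
    ‖SD (φ 0) a L ls‖ ≤ 2 / (l1 * (ls.prod : ℕ)) := by
  have hP : (0 : ℝ) < (ls.prod : ℕ) := by exact_mod_cast hls
  rcases Nat.lt_or_ge L (ls.sum + 1) with hL | hL
  · unfold SD
    rw [show L - ls.sum = 0 by omega]
    simp only [range_zero, sum_empty, norm_zero]
    positivity
  set θ : ℝ := l1 * (ls.prod : ℕ) with hθ
  have hθ0 : 0 < θ := by positivity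
  set x : ℕ → ℝ := fun n => σ * ED (φ 0) ls (a + (n : ℝ)) with hx
  have hdiff : ∀ n : ℕ, x (n + 1) - x n = σ * ED (φ 0) (1 :: ls) (a + (n : ℝ)) := by
    intro n
    simp only [hx, ED]
    push_cast
    rw [show a + n + 1 = a + (n + 1) by ring]
    ring
  have hcast : ∀ m : ℕ, m ≤ L → (m : ℝ) ≤ L := fun m hm => by exact_mod_cast hm
  have hx1 : ∀ n < L - ls.sum, θ ≤ x (n + 1) - x n ∧ x (n + 1) - x n ≤ 1 / 2 := by
    intro n hn
    have hn0 : (0 : ℝ) ≤ n := Nat.cast_nonneg n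
    have h3 := hcast (n + (1 + ls.sum)) (by omega)
    push_cast at h3
    obtain ⟨ξ, e1, e2, e3⟩ := ED_mvt h (1 :: ls) 0 (x := a + n) (by linarith) (by
      rw [List.sum_cons]; push_cast; linarith)
    rw [List.sum_cons] at e2
    push_cast at e2
    rw [hdiff, e3, List.prod_cons, List.length_cons, zero_add, one_mul]
    have h4 := h1 ξ (by linarith) (by linarith)
    constructor
    · calc θ = l1 * (ls.prod : ℕ) := hθ
        _ ≤ (σ * φ (ls.length + 1) ξ) * (ls.prod : ℕ) := by gcongr; exact h4.1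
        _ = _ := by ring
    · calc σ * ((ls.prod : ℕ) * φ (ls.length + 1) ξ) = (σ * φ (ls.length + 1) ξ) * (ls.prod : ℕ) := by ring
        _ ≤ l2 * (ls.prod : ℕ) := by gcongr; exact h4.2
        _ ≤ 1 / 2 := by linarith
  have hθ2 : θ ≤ 1 / 2 := (hx1 0 (by omega)).1.trans (hx1 0 (by omega)).2
  have hx2 : ∀ n, n + 1 < L - ls.sum → ∃ ξ : ℝ, a ≤ ξ ∧ ξ ≤ a + L ∧
      (x (n + 2) - x (n + 1)) - (x (n + 1) - x n) = σ * ((ls.prod : ℕ) * φ (ls.length + 2) ξ) := by
    intro n hn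
    have hn0 : (0 : ℝ) ≤ n := Nat.cast_nonneg n
    have h3 := hcast (n + (1 + (1 + ls.sum))) (by omega)
    push_cast at h3
    obtain ⟨ξ, e1, e2, e3⟩ := ED_mvt h (1 :: 1 :: ls) 0 (x := a + n) (by linarith) (by
      rw [List.sum_cons, List.sum_cons]; push_cast; linarith)
    rw [List.sum_cons, List.sum_cons] at e2
    push_cast at e2
    refine ⟨ξ, by linarith, by linarith, ?_⟩
    rw [List.prod_cons, List.prod_cons, List.length_cons, List.length_cons, zero_add, one_mul, one_mul] at e3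
    rw [← e3, show n + 2 = (n + 1) + 1 by ring, hdiff, hdiff]
    simp only [ED]
    push_cast
    rw [show a + n + 1 = a + (n + 1) by ring]
    ring
  have hnorm : ‖SD (φ 0) a L ls‖ = ‖∑ n ∈ range (L - ls.sum), e (x n)‖ := by
    unfold SD
    rcases hσ with h | h
    · simp only [hx, h, one_mul]
    · rw [← norm_sum_neg]
      congr 1
      refine sum_congr rfl fun n _ => ?_
      congr 1
      simp only [hx, h]
      ring
  rw [hnorm]
  have key : τ * σ = 1 ∨ τ * σ = -1 := by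
    rcases hσ with h | h <;> rcases hτ with h' | h' <;> rw [h, h'] <;> norm_num
  have hσ2 : σ * σ = 1 := by rcases hσ with h | h <;> rw [h] <;> norm_num
  rcases key with hk | hk
  · have hτσ : τ = σ := by
      calc τ = τ * (σ * σ) := by rw [hσ2, mul_one]
        _ = (τ * σ) * σ := by ring
        _ = σ := by rw [hk, one_mul]
    apply kusmin_landau_mono x (L - ls.sum) hθ0 (fun n hn => (hx1 n hn).1)
      (fun n hn => by linarith [(hx1 n hn).2])
    intro n hn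
    obtain ⟨ξ, e1, e2, e3⟩ := hx2 n hn
    have h4 := h2 ξ e1 e2
    rw [hτσ] at h4
    have h5 : 0 ≤ σ * ((ls.prod : ℕ) * φ (ls.length + 2) ξ) := by
      calc (0 : ℝ) ≤ (σ * φ (ls.length + 2) ξ) * (ls.prod : ℕ) := mul_nonneg h4 hP.le
        _ = _ := by ring
    linarith
  · have hτσ : τ = -σ := by
      calc τ = τ * (σ * σ) := by rw [hσ2, mul_one]
        _ = (τ * σ) * σ := by ring
        _ = -σ := by rw [hk]; ring
    apply kusmin_landau_anti x (L - ls.sum) hθ0 (fun n hn => (hx1 n hn).1)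
      (fun n hn => by linarith [(hx1 n hn).2])
    intro n hn
    obtain ⟨ξ, e1, e2, e3⟩ := hx2 n hn
    have h4 := h2 ξ e1 e2
    rw [hτσ] at h4
    have h5 : σ * ((ls.prod : ℕ) * φ (ls.length + 2) ξ) ≤ 0 := by
      have h6 : 0 ≤ (-σ * φ (ls.length + 2) ξ) * (ls.prod : ℕ) := mul_nonneg h4 hP.le
      have h7 : (-σ * φ (ls.length + 2) ξ) * (ls.prod : ℕ) =
          -(σ * ((ls.prod : ℕ) * φ (ls.length + 2) ξ)) := by ring
      rw [h7] at h6
      linarith
    linarith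

/-- van der Corput, normalised by the number of terms -/
theorem exp_boundG {φ : ℕ → ℝ → ℝ} {a : ℝ} {L : ℕ} (h : Chain φ a (a + L)) (q H : ℕ) (hH : 1 ≤ H)
    (hHL : H ≤ L) {l1 l2 σ τ : ℝ} (hl1 : 0 < l1) (hl2 : 0 ≤ l2) (hσ : σ = 1 ∨ σ = -1) (hτ : τ = 1 ∨ τ = -1)
    (h1 : ∀ x, a ≤ x → x ≤ a + L → l1 ≤ σ * φ (q + 1) x ∧ σ * φ (q + 1) x ≤ l2)
    (h2 : ∀ x, a ≤ x → x ≤ a + L → 0 ≤ τ * φ (q + 2) x)
    (hup : 2 * (l2 * (H : ℝ) ^ q) ≤ 1) :
    (‖SD (φ 0) a L []‖ / L) ^ (2 ^ q) ≤ Cq q * (1 / H +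
      (2 / l1 / L) * ((∑ l ∈ Ico 1 H, (1 : ℝ) / l) / H) ^ q) := by
  have hH' : (1 : ℝ) ≤ H := by exact_mod_cast hH
  have hHL' : (H : ℝ) ≤ L := by exact_mod_cast hHL
  have hL0 : (0 : ℝ) < L := by linarith
  have hstep : ∀ ls : List ℕ, (‖SD (φ 0) a L ls‖ / L) ^ 2 ≤
      2 / H + 4 * ((∑ l ∈ Ico 1 H, ‖SD (φ 0) a L (l :: ls)‖ / L) / H) := by
    intro ls
    have h := SD_sq (φ 0) a L H ls
    set Sg := ∑ l ∈ Ico 1 H, ‖SD (φ 0) a L (l :: ls)‖ with hSg
    have hSg0 : 0 ≤ Sg := sum_nonneg fun _ _ => norm_nonneg _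
    have h2 : (H : ℝ) * ‖SD (φ 0) a L ls‖ ^ 2 ≤ (2 * L) * (L + 2 * Sg) := by
      refine h.trans ?_
      have : (L : ℝ) + H ≤ 2 * L := by linarith
      gcongr
    rw [← sum_div, ← hSg]
    have e1 : 2 / (H : ℝ) + 4 * (Sg / L / H) = ((2 * L) * (L + 2 * Sg)) / (H * L ^ 2) := by
      field_simp
      ring
    rw [e1, div_pow, div_le_div_iff₀ (by positivity) (by positivity)]
    calc ‖SD (φ 0) a L ls‖ ^ 2 * (H * L ^ 2) = ((H : ℝ) * ‖SD (φ 0) a L ls‖ ^ 2) * L ^ 2 := by ring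
      _ ≤ _ := by gcongr
  have hit := iterate hH (fun ls => ‖SD (φ 0) a L ls‖ / L) (fun ls => by positivity) hstep q []
  refine hit.trans ?_
  have hC := Cq_pos q
  gcongr
  have := Av_le (H := H) (T := fun ls => ‖SD (φ 0) a L ls‖ / L)
    (κ := 2 / l1 / L) q (by
      intro ls hlen hent
      have hpos : 0 < ls.prod := List.prod_pos fun l hl => (hent l hl).1
      have hle : ls.prod ≤ H ^ q := by
        have := List.prod_le_pow_card ls H (fun l hl => (hent l hl).2.le)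
        rwa [hlen] at this
      have hle' : ((ls.prod : ℕ) : ℝ) ≤ (H : ℝ) ^ q := by exact_mod_cast hle
      have h3 := SD_le h ls hpos hl1 hσ hτ (by rw [hlen]; exact h1) (by rw [hlen]; exact h2) (by
        refine le_trans ?_ hup
        gcongr)
      have hP : (0 : ℝ) < (ls.prod : ℕ) := by exact_mod_cast hpos
      calc ‖SD (φ 0) a L ls‖ / L ≤ (2 / (l1 * (ls.prod : ℕ))) / L := by gcongr
        _ = _ := by field_simp) q [] (by simp) (by simp)
  simpa using this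

/-- the constant of the test -/
noncomputable def CT (q : ℕ) (α : ℝ) : ℝ :=
  1 + Cq q * (2 + 2 * 2 ^ q) * (1 + 2 * α)

theorem CT_pos (q : ℕ) (α : ℝ) (hα : 0 ≤ α) : 1 ≤ CT q α := by
  have := Cq_pos q
  unfold CT
  have h : 0 ≤ Cq q * (2 + 2 * 2 ^ q) * (1 + 2 * α) := by positivity
  linarith

theorem Cq_one (q : ℕ) : (1 : ℝ) ≤ Cq q := by
  rcases q with _ | q
  · simp [Cq]
  · unfold Cq
    have h6 := Cq_pos q
    have h7 : (1 : ℝ) ≤ 2 ^ (2 ^ q) := one_le_pow₀ (by norm_num)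
    nlinarith [mul_nonneg (pow_nonneg (by norm_num : (0:ℝ) ≤ 4) (2 ^ q)) h6.le]

theorem SD_triv (f : ℝ → ℝ) (a : ℝ) (L : ℕ) : ‖SD f a L []‖ ≤ L := by
  unfold SD
  refine (norm_sum_le _ _).trans ?_
  simp only [norm_e, sum_const, card_range, nsmul_eq_mul, mul_one, List.sum_nil, Nat.sub_zero]
  exact le_rfl

/-- the `q`-th test -/
theorem testG {φ : ℕ → ℝ → ℝ} {a : ℝ} {L : ℕ} (h : Chain φ a (a + L)) (q : ℕ) (hq : 1 ≤ q) (hL : 1 ≤ L)
    {l α σ τ : ℝ} (hl : 0 < l) (hα : 1 ≤ α) (hσ : σ = 1 ∨ σ = -1) (hτ : τ = 1 ∨ τ = -1)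
    (h1 : ∀ x, a ≤ x → x ≤ a + L → l ≤ σ * φ (q + 1) x ∧ σ * φ (q + 1) x ≤ α * l)
    (h2 : ∀ x, a ≤ x → x ≤ a + L → 0 ≤ τ * φ (q + 2) x) :
    (‖SD (φ 0) a L []‖ / L) ^ (2 ^ q) ≤ CT q α * (1 + Real.log L) ^ q *
      (1 / L + l ^ ((1 : ℝ) / q) + 1 / (l * (L : ℝ) ^ (q + 1))) := by
  have hL' : (1 : ℝ) ≤ L := by exact_mod_cast hL
  have hL0 : (0 : ℝ) < L := by linarith
  have hq' : (1 : ℝ) ≤ q := by exact_mod_cast hq
  have hlog : 0 ≤ Real.log L := Real.log_nonneg hL'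
  have hCq := Cq_pos q
  have hα0 : 0 < α := by linarith
  have htriv : ‖SD (φ 0) a L []‖ / L ≤ 1 := by
    rw [div_le_one hL0]
    exact SD_triv _ _ _
  have hnn : 0 ≤ ‖SD (φ 0) a L []‖ / L := by positivity
  have hlq : (1 : ℝ) ≤ (1 + Real.log L) ^ q := one_le_pow₀ (by linarith)
  set g : ℝ := (1 / (2 * α * l)) ^ ((1 : ℝ) / q) with hg
  have hgq : g ^ q = 1 / (2 * α * l) := by
    rw [hg, ← Real.rpow_natCast, ← Real.rpow_mul (by positivity), one_div_mul_cancel (by positivity),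
      Real.rpow_one]
  have hg0 : 0 < g := by rw [hg]; positivity
  have hginv : 1 / g ≤ (2 * α) * l ^ ((1 : ℝ) / q) := by
    have h1 : 1 / g = (2 * α * l) ^ ((1 : ℝ) / q) := by
      rw [hg, one_div, ← Real.inv_rpow (by positivity), one_div, inv_inv]
    rw [h1, Real.mul_rpow (by positivity) (by positivity)]
    have h2 : (2 * α) ^ ((1 : ℝ) / q) ≤ 2 * α := by
      calc (2 * α) ^ ((1 : ℝ) / q) ≤ (2 * α) ^ (1 : ℝ) :=
            Real.rpow_le_rpow_of_exponent_le (by linarith) (by rw [div_le_one (by positivity)]; exact hq')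
        _ = _ := Real.rpow_one _
    gcongr
  have hP0 : 0 ≤ l ^ ((1 : ℝ) / q) := by positivity
  have hR0 : 0 ≤ 1 / (l * (L : ℝ) ^ (q + 1)) := by positivity
  have hL1 : 0 ≤ 1 / (L : ℝ) := by positivity
  set P : ℝ := l ^ ((1 : ℝ) / q) with hP
  set R : ℝ := 1 / (l * (L : ℝ) ^ (q + 1)) with hR
  have hCT := CT_pos q α hα0.le
  rcases lt_or_ge g 1 with hg1 | hg1
  · -- trivial case
    have h1 : 1 ≤ (2 * α) * P := by
      refine le_trans ?_ hginv
      rw [le_div_iff₀ hg0]; linarith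
    have h2 : (‖SD (φ 0) a L []‖ / L) ^ (2 ^ q) ≤ 1 := pow_le_one₀ hnn htriv
    refine h2.trans ?_
    have h3 : (1 : ℝ) ≤ CT q α * P := by
      refine h1.trans ?_
      have h4 : (2 * α : ℝ) ≤ CT q α := by
        unfold CT
        have h5 := Cq_one q
        have h6 : (1 : ℝ) ≤ 2 + 2 * 2 ^ q := by
          have : (0 : ℝ) ≤ 2 * 2 ^ q := by positivity
          linarith
        have h7 : (1 : ℝ) ≤ Cq q * (2 + 2 * 2 ^ q) := one_le_mul_of_one_le_of_one_le h5 h6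
        nlinarith
      gcongr
    calc (1 : ℝ) ≤ CT q α * P := h3
      _ = CT q α * 1 * P := by ring
      _ ≤ CT q α * (1 + Real.log L) ^ q * (1 / L + P + R) := by
        gcongr
        linarith
  · set hh : ℝ := min (L : ℝ) g with hhh
    have hh1 : 1 ≤ hh := le_min hL' hg1
    have hh0 : 0 < hh := by linarith
    have hhL : hh ≤ L := min_le_left _ _
    have hhg : hh ≤ g := min_le_right _ _
    obtain ⟨H, hH⟩ : ∃ H : ℕ, H = ⌊hh⌋₊ := ⟨_, rfl⟩
    have hH1 : 1 ≤ H := by rw [hH]; exact Nat.le_floor (by exact_mod_cast hh1)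
    have hH1' : (1 : ℝ) ≤ H := by exact_mod_cast hH1
    have hHh : (H : ℝ) ≤ hh := by rw [hH]; exact Nat.floor_le hh0.le
    have hhH : hh ≤ 2 * H := by
      have := Nat.lt_floor_add_one hh
      rw [← hH] at this
      linarith
    have hHL : H ≤ L := by exact_mod_cast hHh.trans hhL
    have hup : 2 * ((α * l) * (H : ℝ) ^ q) ≤ 1 := by
      have h1 : (H : ℝ) ^ q ≤ 1 / (2 * α * l) := by
        rw [← hgq]
        exact pow_le_pow_left₀ (by positivity) (hHh.trans hhg) q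
      calc 2 * ((α * l) * (H : ℝ) ^ q)
          ≤ 2 * ((α * l) * (1 / (2 * α * l))) := by
            gcongr
        _ = 1 := by field_simp
    have hmain := exp_boundG h q H hH1 hHL hl (by positivity) hσ hτ h1 h2 hup
    refine hmain.trans ?_
    -- bound of the two terms
    have hHinv : 1 / (H : ℝ) ≤ 2 / hh := by
      rw [div_le_div_iff₀ (by linarith) hh0]
      linarith
    have hharm : (∑ l ∈ Ico 1 H, (1 : ℝ) / l) / H ≤ 2 * (1 + Real.log L) / hh := by
      have h1 := harm_le H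
      have h2 : Real.log H ≤ Real.log L := Real.log_le_log (by linarith) (by exact_mod_cast hHL)
      have h3 : 0 ≤ ∑ l ∈ Ico 1 H, (1 : ℝ) / l := sum_nonneg fun _ _ => by positivity
      rw [div_le_div_iff₀ (by linarith) hh0]
      calc (∑ l ∈ Ico 1 H, (1 : ℝ) / l) * hh ≤ (1 + Real.log L) * (2 * H) := by
            apply mul_le_mul (by linarith) hhH hh0.le (by linarith)
        _ = _ := by ring
    have hharm0 : 0 ≤ (∑ l ∈ Ico 1 H, (1 : ℝ) / l) / H := by
      have h3 : 0 ≤ ∑ l ∈ Ico 1 H, (1 : ℝ) / l := sum_nonneg fun _ _ => by positivity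
      positivity
    have hharmq : ((∑ l ∈ Ico 1 H, (1 : ℝ) / l) / H) ^ q ≤ 2 ^ q * (1 + Real.log L) ^ q / hh ^ q := by
      rw [← mul_pow, ← div_pow]
      exact pow_le_pow_left₀ hharm0 hharm q
    have h1h : 1 / hh ≤ 1 / L + (2 * α) * P := by
      rcases min_choice (L : ℝ) g with hc | hc
      · rw [hhh, hc]
        have : 0 ≤ (2 * α) * P := by positivity
        linarith
      · rw [hhh, hc]
        linarith
    have h2h : 1 / (l * L * hh ^ q) ≤ R + 2 * α / L := by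
      rcases min_choice (L : ℝ) g with hc | hc
      · rw [hhh, hc, hR]
        have e1 : l * (L : ℝ) * (L : ℝ) ^ q = l * (L : ℝ) ^ (q + 1) := by ring
        rw [e1]
        have : 0 ≤ 2 * α / L := by positivity
        linarith
      · rw [hhh, hc, hgq]
        have e1 : 1 / (l * L * (1 / (2 * α * l))) = 2 * α / L := by
          field_simp
        rw [e1]
        linarith
    have hsecond : (2 / l / L) * ((∑ l ∈ Ico 1 H, (1 : ℝ) / l) / H) ^ q ≤
        2 * 2 ^ q * (1 + Real.log L) ^ q * (1 / (l * L * hh ^ q)) := by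
      calc (2 / l / L) * ((∑ l ∈ Ico 1 H, (1 : ℝ) / l) / H) ^ q
          ≤ (2 / l / L) * (2 ^ q * (1 + Real.log L) ^ q / hh ^ q) := by
            gcongr
        _ = _ := by
            field_simp
    set lg : ℝ := (1 + Real.log L) ^ q with hlg
    have hX0 : 0 ≤ 1 / L + P + R := by positivity
    have e1 : 1 / (H : ℝ) ≤ lg * (2 * (1 + 2 * α) * (1 / L + P + R)) := by
      have h3 : 1 / (H : ℝ) ≤ 2 * (1 / L + 2 * α * P) := by
        calc 1 / (H : ℝ) ≤ 2 / hh := hHinv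
          _ = 2 * (1 / hh) := by ring
          _ ≤ _ := by gcongr
      have h4 : 2 * (1 / (L : ℝ) + 2 * α * P) ≤ 2 * (1 + 2 * α) * (1 / L + P + R) := by
        have a1 : 0 ≤ 2 * α * (1 / L) := by positivity
        have a3 : 0 ≤ 2 * α * R := by positivity
        nlinarith
      calc 1 / (H : ℝ) ≤ 2 * (1 + 2 * α) * (1 / L + P + R) := h3.trans h4
        _ = 1 * (2 * (1 + 2 * α) * (1 / L + P + R)) := by ring
        _ ≤ _ := by
            apply mul_le_mul_of_nonneg_right hlq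
            positivity
    have e2 : 1 / (l * L * hh ^ q) ≤ (1 + 2 * α) * (1 / L + P + R) := by
      refine h2h.trans ?_
      have a2 : 0 ≤ 2 * α * P := by positivity
      have a3 : 0 ≤ 2 * α * R := by positivity
      have a4 : 2 * α / L = 2 * α * (1 / L) := by ring
      rw [a4]
      nlinarith
    calc Cq q * (1 / H + (2 / l / L) *
          ((∑ l ∈ Ico 1 H, (1 : ℝ) / l) / H) ^ q)
        ≤ Cq q * (lg * (2 * (1 + 2 * α) * (1 / L + P + R)) +
          2 * 2 ^ q * lg * ((1 + 2 * α) * (1 / L + P + R))) := by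
          have e3 : 2 / l / L *
              ((∑ l ∈ Ico 1 H, (1 : ℝ) / l) / H) ^ q ≤
              2 * 2 ^ q * lg * ((1 + 2 * α) * (1 / L + P + R)) :=
            hsecond.trans (mul_le_mul_of_nonneg_left e2 (by positivity))
          exact mul_le_mul_of_nonneg_left (add_le_add e1 e3) hCq.le
      _ = (Cq q * (2 + 2 * 2 ^ q) * (1 + 2 * α)) * lg * (1 / L + P + R) := by ring
      _ ≤ CT q α * lg * (1 / L + P + R) := by
          have : Cq q * (2 + 2 * 2 ^ q) * (1 + 2 * α) ≤ CT q α := by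
            unfold CT; linarith
          gcongr

end Pool.Agent.H472.PV
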